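import Pool.Agent.helper45.Brauer.Upper

set_option autoImplicit false

namespace Pool.Agent.helper45.Brauer

/-- The number of conjugacy classes of `p`-regular elements (elements of order prime to `p`). -/
noncomputable def regClasses (p : ℕ) (G : Type) [Group G] : ℕ :=
  Nat.card {c : ConjClasses G // ∃ g, ConjClasses.mk g = c ∧ ¬ p ∣ orderOf g}

lemma reg_pairs (p : ℕ) (G : Type) [Group G] [Finite G] :
    Nat.card {x : G × G // ¬ p ∣ orderOf x.1 ∧ Commute x.1 x.2} = regClasses p G * Nat.card G := by
  unfold regClasses
  apply card_pairs (fun g : G => ¬ p ∣ orderOf g)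
  intro g h hg
  have : orderOf (h * g * h⁻¹) = orderOf g := by
    have := orderOf_injective (MulAut.conj h).toMonoidHom (MulAut.conj h).injective g
    simpa using this
  rwa [this]

section

variable {S : Type} [Group S] [Finite S] (par : S →* Multiplicative (ZMod 2))

lemma orderOf_fibre (x : Heis) (s : S) : 3 ∣ orderOf (x, s) ↔ 3 ∣ orderOf s := by
  rw [Prod.orderOf_mk]
  constructor
  · intro h
    have h3 : Nat.Prime 3 := by norm_num
    have hx : orderOf x ∣ 4 := orderOf_dvd_of_pow_eq_one x.pow_four
    have h4 : Nat.lcm (orderOf x) (orderOf s) ∣ orderOf x * orderOf s :=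
      Nat.lcm_dvd_mul _ _
    rcases (Nat.Prime.dvd_mul h3).1 (h.trans h4) with h5 | h5
    · have h6 := h5.trans hx
      norm_num at h6
    · exact h5
  · intro h
    exact h.trans (Nat.dvd_lcm_right _ _)

/-- Lower bound for the number of 3-regular classes of the fibre product. -/
theorem reg_FP (hsurj : Function.Surjective par) (h1 : 11 ≤ regClasses 3 S)
    (h2 : 10 ≤ regClasses 3 par.ker) :
    362 ≤ regClasses 3 (FP par) := by
  have e1 := reg_pairs 3 (FP par)
  have e2 := reg_pairs 3 S
  have e3 := reg_pairs 3 par.ker
  have hcard : Nat.card (FP par) = 64 * Nat.card S := by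
    have h := card_over par (⊤ : Subgroup S)
    rw [Subgroup.card_top] at h
    rw [← h]
    apply Nat.card_congr
    refine Equiv.subtypeEquiv (Equiv.refl _) ?_
    intro x
    simp [mem_FP]
  have hker : 2 * Nat.card par.ker = Nat.card S := by
    have h := Subgroup.card_mul_index par.ker
    rw [Subgroup.index_ker, MonoidHom.range_eq_top.2 hsurj, Subgroup.card_top] at h
    have : Nat.card (Multiplicative (ZMod 2)) = 2 := by simp
    rw [this] at h
    omega
  have hc := count_pairs par (fun s t => ¬ 3 ∣ orderOf s ∧ Commute s t)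
  have f1 : Nat.card {x : FP par × FP par // ¬ 3 ∣ orderOf x.1 ∧ Commute x.1 x.2} =
      Nat.card {q : (Heis × S) × (Heis × S) // Heis.par q.1.1 = par q.1.2 ∧
      Heis.par q.2.1 = par q.2.2 ∧ Commute q.1.1 q.2.1 ∧
      (¬ 3 ∣ orderOf q.1.2 ∧ Commute q.1.2 q.2.2)} := by
    apply Nat.card_congr
    exact { toFun := fun x => ⟨(x.1.1.1, x.1.2.1), x.1.1.2, x.1.2.2, by
                have h := congrArg Subtype.val x.2.2.eq
                exact congrArg Prod.fst h, by
                have h := x.2.1
                rw [← Subgroup.orderOf_coe] at h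
                rwa [← orderOf_fibre x.1.1.1.1], by
                have h := congrArg Subtype.val x.2.2.eq
                exact congrArg Prod.snd h⟩
            invFun := fun q => ⟨(⟨q.1.1, q.2.1⟩, ⟨q.1.2, q.2.2.1⟩), by
                rw [← Subgroup.orderOf_coe]
                show ¬ 3 ∣ orderOf (q.1.1.1, q.1.1.2)
                rw [orderOf_fibre]
                exact q.2.2.2.2.1, by
                apply Subtype.ext
                exact Prod.ext q.2.2.2.1.eq q.2.2.2.2.2.eq⟩
            left_inv := fun x => rfl
            right_inv := fun x => rfl }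
  have f2 : Nat.card {r : S × S // (¬ 3 ∣ orderOf r.1 ∧ Commute r.1 r.2) ∧ par r.1 = 1 ∧
      par r.2 = 1} = Nat.card {x : par.ker × par.ker // ¬ 3 ∣ orderOf x.1 ∧
        Commute x.1 x.2} := by
    apply Nat.card_congr
    exact { toFun := fun r => ⟨(⟨r.1.1, r.2.2.1⟩, ⟨r.1.2, r.2.2.2⟩), by
                rw [← Subgroup.orderOf_coe]
                exact r.2.1.1, Subtype.ext r.2.1.2.eq⟩
            invFun := fun x => ⟨(x.1.1.1, x.1.2.1), ⟨by
                have h := x.2.1
                rw [← Subgroup.orderOf_coe] at h
                exact h, by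
                have h := congrArg Subtype.val x.2.2.eq
                exact h⟩, x.1.1.2, x.1.2.2⟩
            left_inv := fun x => rfl
            right_inv := fun x => rfl }
  rw [f1, hc, e2, f2, e3, hcard] at e1
  have hpos : 0 < Nat.card par.ker := Nat.card_pos
  by_contra hlt
  push Not at hlt
  have h3 : regClasses 3 (FP par) ≤ 361 := by omega
  have h4 : regClasses 3 (FP par) * (64 * Nat.card S) ≤ 361 * (64 * Nat.card S) :=
    Nat.mul_le_mul_right _ h3
  have h5 : 11 * Nat.card S ≤ regClasses 3 S * Nat.card S := Nat.mul_le_mul_right _ h1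
  have h6 : 10 * Nat.card par.ker ≤ regClasses 3 par.ker * Nat.card par.ker :=
    Nat.mul_le_mul_right _ h2
  omega

end

end Pool.Agent.helper45.Brauer
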