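import Pool.Agent.helper45.Brauer.SA3
import Pool.Agent.helper45.Brauer.Lower

set_option autoImplicit false

namespace Pool.Agent.helper45.Brauer

/-- Number of moved points, on codes. -/
def suppc (c : ℕ) : ℕ := ((Finset.univ : Finset (Fin 12)).filter
  (fun i => ¬ (dig c i.val = i.val))).card

lemma suppc_code (σ : Equiv.Perm (Fin 12)) : suppc (code σ) = σ.support.card := by
  unfold suppc
  congr 1
  ext i
  rw [Finset.mem_filter, Equiv.Perm.mem_support, dig_code σ i.val i.isLt]
  simp [Fin.ext_iff]

/-- Conjugacy invariant on codes. -/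
def invc (c : ℕ) : ℕ × ℕ × ℕ × ℕ × ℕ :=
  (suppc c, suppc (mulc c c), suppc (mulc (mulc (mulc c c) c) c),
    suppc (mulc (mulc (mulc (mulc c c) c) c) c), dig c 10)

lemma suppc_conj (s t g : S) (h : g * s * g⁻¹ = t) : suppc (code s.1) = suppc (code t.1) := by
  rw [suppc_code, suppc_code, ← h]
  exact (Equiv.Perm.card_support_conj (σ := g.1) (τ := s.1)).symm

lemma par_conj (s t g : S) (h : g * s * g⁻¹ = t) : par s = par t := by
  rw [← h, map_mul, map_mul, map_inv, mul_comm (par g), mul_assoc, mul_inv_cancel, mul_one]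

lemma dig10 (s : S) : dig (code s.1) 10 = if par s = 1 then 10 else 11 := by
  have h := dig_code s.1 10 (by norm_num)
  rw [h]
  rcases extra s with ⟨a, b⟩ | ⟨a, b⟩
  · rw [if_pos ((par_eq_one_iff s).2 a)]
    have : s.1 ⟨10, by norm_num⟩ = 10 := a
    rw [this]; rfl
  · rw [if_neg (by rw [par_eq_one_iff, a]; decide)]
    have : s.1 ⟨10, by norm_num⟩ = 11 := a
    rw [this]; rfl

lemma invc_conj (s t g : S) (h : g * s * g⁻¹ = t) : invc (code s.1) = invc (code t.1) := by
  have h2 : g * s ^ 2 * g⁻¹ = t ^ 2 := by rw [← h, conj_pow]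
  have h4 : g * s ^ 4 * g⁻¹ = t ^ 4 := by rw [← h, conj_pow]
  have h5 : g * s ^ 5 * g⁻¹ = t ^ 5 := by rw [← h, conj_pow]
  have e1 := suppc_conj s t g h
  have e2 := suppc_conj _ _ g h2
  have e4 := suppc_conj _ _ g h4
  have e5 := suppc_conj _ _ g h5
  have e6 : dig (code s.1) 10 = dig (code t.1) 10 := by
    rw [dig10, dig10, par_conj s t g h]
  rw [code_pow_two, code_pow_two] at e2
  rw [code_pow_four, code_pow_four] at e4
  rw [pow_succ s 4, pow_succ t 4, code_mul', code_mul', code_pow_four, code_pow_four] at e5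
  unfold invc
  rw [e1, e2, e4, e5, e6]

/-- Codes of representatives for the 3-regular classes of `S`. -/
def R : Fin 11 → ℕ := ![205163983024656, 205134204584736, 204536947029081, 188661678371856,
  205136638399536, 204532374119241, 188640928278336, 204514668410421, 188040167376681,
  204522391770981, 188026558223481]

/-- Codes of representatives for the 3-regular classes of the kernel of `par`. -/
def R0 : Fin 10 → ℕ := ![205163983024656, cy, mulc (mulc cy cy) cy, 204536947029081,
  205136638399536, 204532374119241, cz, mulc (mulc cz cz) cz, cx, mulc cx cx]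

lemma R_spec : ∀ i : Fin 11, lookup (R i) < 1440 ∧ entry (lookup (R i)) = R i ∧
    pow160 (R i) = cid := by decide +kernel

lemma R0_spec : ∀ i : Fin 10, lookup (R0 i) < 1440 ∧ entry (lookup (R0 i)) = R0 i ∧
    pow160 (R0 i) = cid ∧ dig (R0 i) 10 = 10 := by decide +kernel

lemma R_inv : ∀ i j : Fin 11, invc (R i) = invc (R j) → i = j := by decide +kernel

/-- No element of the kernel conjugates `c` to `d`. -/
def noconj (c d : ℕ) : Bool :=
  allBelow (fun j => !(Nat.beq (dig (entry j) 10) 10) ||
    !(Nat.beq (mulc (entry j) c) (mulc d (entry j)))) 1440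

lemma R0_inv : ∀ i j : Fin 10, i < j → (¬ (invc (R0 i) = invc (R0 j)) ∨
    noconj (R0 i) (R0 j) = true) := by decide +kernel

lemma not_three_dvd (s : S) (h : pow160 (code s.1) = cid) : ¬ 3 ∣ orderOf s := by
  have h1 : s ^ 160 = 1 := by
    apply eq_of_code
    rw [code_pow160', h, code_one']
  have h2 : orderOf s ∣ 160 := orderOf_dvd_of_pow_eq_one h1
  intro h3
  have h4 := h3.trans h2
  norm_num at h4

theorem reg_S : 11 ≤ regClasses 3 S := by
  have hex : ∀ i : Fin 11, ∃ s : S, code s.1 = R i := fun i =>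
    exists_of_lookup _ (R_spec i).1 (R_spec i).2.1
  choose r hr using hex
  have hinj : Function.Injective (fun i : Fin 11 => (⟨ConjClasses.mk (r i), r i, rfl,
      not_three_dvd (r i) (by rw [hr]; exact (R_spec i).2.2)⟩ :
      {c : ConjClasses S // ∃ g, ConjClasses.mk g = c ∧ ¬ 3 ∣ orderOf g})) := by
    intro i j hij
    simp only [Subtype.mk.injEq] at hij
    rw [ConjClasses.mk_eq_mk_iff_isConj, isConj_iff] at hij
    obtain ⟨g, hg⟩ := hij
    have h := invc_conj (r i) (r j) g hg
    rw [hr, hr] at h
    exact R_inv i j h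
  have h := Nat.card_le_card_of_injective _ hinj
  rw [Nat.card_eq_fintype_card, Fintype.card_fin] at h
  exact h

theorem reg_ker : 10 ≤ regClasses 3 par.ker := by
  have hex : ∀ i : Fin 10, ∃ s : S, code s.1 = R0 i := fun i =>
    exists_of_lookup _ (R0_spec i).1 (R0_spec i).2.1
  choose r hr using hex
  have hpar : ∀ i, r i ∈ par.ker := by
    intro i
    rw [MonoidHom.mem_ker]
    by_contra hne
    have h := dig10 (r i)
    rw [if_neg hne, hr, (R0_spec i).2.2.2] at h
    omega
  have hnc : ∀ i j : Fin 10, i < j → ∀ g : S, par g = 1 → ¬ (g * r i * g⁻¹ = r j) := by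
    intro i j hij g hg hcon
    rcases R0_inv i j hij with h | h
    · apply h
      have h1 := invc_conj (r i) (r j) g hcon
      rwa [hr, hr] at h1
    · have h1 := forall_S (fun c => !(Nat.beq (dig c 10) 10) ||
        !(Nat.beq (mulc c (R0 i)) (mulc (R0 j) c))) h g
      have h2 : dig (code g.1) 10 = 10 := by rw [dig10, if_pos hg]
      have h3 : mulc (code g.1) (R0 i) = mulc (R0 j) (code g.1) := by
        have e : g * r i = r j * g := by rw [← hcon]; group
        rw [← hr i, ← hr j, ← code_mul', ← code_mul', e]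
      simp only [h2, h3, Nat.beq_refl, Bool.not_true, Bool.or_self] at h1
      exact absurd h1 (by decide)
  have hinj : Function.Injective (fun i : Fin 10 =>
      (⟨ConjClasses.mk (⟨r i, hpar i⟩ : par.ker), ⟨r i, hpar i⟩, rfl, by
        rw [← Subgroup.orderOf_coe]
        exact not_three_dvd (r i) (by rw [hr]; exact (R0_spec i).2.2.1)⟩ :
      {c : ConjClasses par.ker // ∃ g, ConjClasses.mk g = c ∧ ¬ 3 ∣ orderOf g})) := by
    intro i j hij
    simp only [Subtype.mk.injEq] at hij
    rw [ConjClasses.mk_eq_mk_iff_isConj, isConj_iff] at hij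
    obtain ⟨g, hg⟩ := hij
    have hg1 : g.1 * r i * g.1⁻¹ = r j := congrArg Subtype.val hg
    rcases lt_trichotomy i j with h | h | h
    · exact absurd hg1 (hnc i j h g.1 g.2)
    · exact h
    · exfalso
      refine hnc j i h g.1⁻¹ ?_ ?_
      · rw [map_inv, g.2, inv_one]
      · rw [← hg1]; group
  have h := Nat.card_le_card_of_injective _ hinj
  rw [Nat.card_eq_fintype_card, Fintype.card_fin] at h
  exact h

end Pool.Agent.helper45.Brauer
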