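import Pool.Agent.helper45.Brauer.Tables

set_option autoImplicit false

namespace Pool.Agent.helper45.Brauer

/-- Entry `j` of the table of elements. -/
def entry (j : ℕ) : ℕ := T >>> (48 * j) % 2 ^ 48

/-- The index key of a code. -/
def key (c : ℕ) : ℕ := dig c 0 + 10 * dig c 1 + 100 * dig c 2 + 1000 * (dig c 10 - 10)

/-- Look up the index of a code. -/
def lookup (c : ℕ) : ℕ := INV >>> (12 * key c) % 2 ^ 12

/-- Closure of the table under left multiplication by a generator. -/
def okGen (g j : ℕ) : Bool :=
  (fun c => Nat.beq (entry (lookup c)) c && Nat.blt (lookup c) 1440) (mulc g (entry j))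

def check1 (j : ℕ) : Bool :=
  Nat.beq (lookup (entry j)) j && (okGen cg1 j && (okGen cg2 j && (okGen cg3 j && okGen cg4 j)))

theorem check1_all : allBelow check1 1440 = true := by decide +kernel

def genOf (k : ℕ) : ℕ :=
  if k = 0 then cg1 else if k = 1 then cg2 else if k = 2 then cg3 else cg4

/-- Every entry but the first comes from a smaller one by a generator. -/
def check2 (j : ℕ) : Bool :=
  Nat.beq j 0 || (fun w => Nat.blt (w / 4) j &&
    Nat.beq (entry j) (mulc (genOf (w % 4)) (entry (w / 4)))) (PAR >>> (16 * j) % 2 ^ 16)

theorem check2_all : allBelow check2 1440 = true := by decide +kernel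

end Pool.Agent.helper45.Brauer
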