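import Mathlib

set_option autoImplicit false

namespace Pool.Agent.helper45.Brauer

/-- Hexadecimal digit `i` of `c`. -/
def dig (c i : ℕ) : ℕ := c / 16 ^ i % 16

/-- The number with hexadecimal digits `f 0, …, f 11`. -/
def mk12 (f : ℕ → ℕ) : ℕ :=
  f 0 + 16 * (f 1 + 16 * (f 2 + 16 * (f 3 + 16 * (f 4 + 16 * (f 5 + 16 * (f 6 + 16 * (f 7 +
    16 * (f 8 + 16 * (f 9 + 16 * (f 10 + 16 * f 11))))))))))

/-- Composition of coded maps. -/
def mulc (c d : ℕ) : ℕ := mk12 (fun i => dig c (dig d i))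

lemma dig_mk12 (f : ℕ → ℕ) (hf : ∀ i, i < 12 → f i < 16) (i : ℕ) (hi : i < 12) :
    dig (mk12 f) i = f i := by
  have h0 := hf 0 (by norm_num)
  have h1 := hf 1 (by norm_num)
  have h2 := hf 2 (by norm_num)
  have h3 := hf 3 (by norm_num)
  have h4 := hf 4 (by norm_num)
  have h5 := hf 5 (by norm_num)
  have h6 := hf 6 (by norm_num)
  have h7 := hf 7 (by norm_num)
  have h8 := hf 8 (by norm_num)
  have h9 := hf 9 (by norm_num)
  have h10 := hf 10 (by norm_num)
  have h11 := hf 11 (by norm_num)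
  unfold dig mk12
  interval_cases i <;> norm_num <;> omega

lemma mk12_congr {f g : ℕ → ℕ} (h : ∀ i, i < 12 → f i = g i) : mk12 f = mk12 g := by
  unfold mk12
  rw [h 0 (by norm_num), h 1 (by norm_num), h 2 (by norm_num), h 3 (by norm_num),
    h 4 (by norm_num), h 5 (by norm_num), h 6 (by norm_num), h 7 (by norm_num),
    h 8 (by norm_num), h 9 (by norm_num), h 10 (by norm_num), h 11 (by norm_num)]

/-- The code of a permutation of twelve points. -/
def code (σ : Equiv.Perm (Fin 12)) : ℕ :=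
  mk12 (fun i => if h : i < 12 then (σ ⟨i, h⟩).val else 0)

lemma dig_code (σ : Equiv.Perm (Fin 12)) (i : ℕ) (hi : i < 12) :
    dig (code σ) i = (σ ⟨i, hi⟩).val := by
  unfold code
  rw [dig_mk12 _ _ i hi]
  · simp [hi]
  · intro j hj
    simp only [hj, dite_true]
    have := (σ ⟨j, hj⟩).isLt
    omega

lemma code_mul (σ τ : Equiv.Perm (Fin 12)) : code (σ * τ) = mulc (code σ) (code τ) := by
  rw [code, mulc]
  apply mk12_congr
  intro i hi
  simp only [hi, dite_true]
  rw [dig_code τ i hi, dig_code σ _ (τ ⟨i, hi⟩).isLt]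
  rfl

lemma code_injective : Function.Injective code := by
  intro σ τ h
  apply Equiv.ext
  intro i
  apply Fin.ext
  have h1 := dig_code σ i.val i.isLt
  have h2 := dig_code τ i.val i.isLt
  rw [h] at h1
  rw [h1] at h2
  exact h2

lemma code_eq_iff (σ τ : Equiv.Perm (Fin 12)) : code σ = code τ ↔ σ = τ :=
  code_injective.eq_iff

/-- `f 0, …, f (n-1)` are all true. -/
def allBelow (f : ℕ → Bool) : ℕ → Bool
  | 0 => true
  | n + 1 => f n && allBelow f n

lemma allBelow_spec (f : ℕ → Bool) (n : ℕ) (h : allBelow f n = true) (j : ℕ) (hj : j < n) :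
    f j = true := by
  induction n with
  | zero => omega
  | succ n ih =>
    simp only [allBelow, Bool.and_eq_true] at h
    rcases Nat.lt_succ_iff_lt_or_eq.1 hj with h1 | h1
    · exact ih h.2 h1
    · rw [h1]; exact h.1

/-- The 12 digits of the identity. -/
def cid : ℕ := mk12 (fun i => i)

lemma code_one : code 1 = cid := by
  unfold code cid
  apply mk12_congr
  intro i hi
  simp [hi]

/-- `c ^ 160` for codes. -/
def pow160 (c : ℕ) : ℕ :=
  (fun c5 => (fun c10 => (fun c20 => (fun c40 => (fun c80 => mulc c80 c80) (mulc c40 c40))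
    (mulc c20 c20)) (mulc c10 c10)) (mulc c5 c5)) (mulc (mulc (mulc c c) (mulc c c)) c)

lemma code_pow160 (σ : Equiv.Perm (Fin 12)) : code (σ ^ 160) = pow160 (code σ) := by
  have h5 : σ * σ * (σ * σ) * σ = σ ^ 5 := by
    simp only [pow_succ, pow_zero, one_mul, mul_assoc]
  have h10 : σ ^ 5 * σ ^ 5 = σ ^ 10 := by rw [← pow_add]
  have h20 : σ ^ 10 * σ ^ 10 = σ ^ 20 := by rw [← pow_add]
  have h40 : σ ^ 20 * σ ^ 20 = σ ^ 40 := by rw [← pow_add]
  have h80 : σ ^ 40 * σ ^ 40 = σ ^ 80 := by rw [← pow_add]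
  have h160 : σ ^ 80 * σ ^ 80 = σ ^ 160 := by rw [← pow_add]
  unfold pow160
  simp only [← code_mul]
  rw [h5, h10, h20, h40, h80, h160]

end Pool.Agent.helper45.Brauer
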