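import Mathlib

set_option autoImplicit false

namespace Pool.Agent.helper45.Brauer

open scoped Classical in
/-- Counting commuting pairs whose first entry satisfies a conjugation-invariant predicate. -/
theorem card_pairs {G : Type*} [Group G] [Finite G] (P : G → Prop)
    (hP : ∀ g h : G, P g → P (h * g * h⁻¹)) :
    Nat.card {x : G × G // P x.1 ∧ Commute x.1 x.2} =
      Nat.card {c : ConjClasses G // ∃ g, ConjClasses.mk g = c ∧ P g} * Nat.card G := by
  haveI : Fintype G := Fintype.ofFinite G
  -- centralizer counts
  have hstab : ∀ g : G, Nat.card {h : G // Commute g h} *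
      Nat.card {g' : G // ConjClasses.mk g' = ConjClasses.mk g} = Nat.card G := by
    intro g
    have h1 := MulAction.card_orbit_mul_card_stabilizer_eq_card_group (ConjAct G) g
    simp only [← Nat.card_eq_fintype_card] at h1
    have h2 : Nat.card (MulAction.stabilizer (ConjAct G) g) = Nat.card {h : G // Commute g h} := by
      apply Nat.card_congr
      refine Equiv.subtypeEquiv ConjAct.ofConjAct.toEquiv ?_
      intro a
      simp only [MulAction.mem_stabilizer_iff, ConjAct.smul_def, MulEquiv.toEquiv_eq_coe,
        EquivLike.coe_coe]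
      rw [mul_inv_eq_iff_eq_mul]
      exact ⟨fun h => h.symm, fun h => h.symm⟩
    have h3 : Nat.card (MulAction.orbit (ConjAct G) g) =
        Nat.card {g' : G // ConjClasses.mk g' = ConjClasses.mk g} := by
      apply Nat.card_congr
      refine Equiv.subtypeEquiv (Equiv.refl G) ?_
      intro a
      rw [ConjAct.mem_orbit_conjAct]
      simp [ConjClasses.mk_eq_mk_iff_isConj]
    have h4 : Nat.card (ConjAct G) = Nat.card G := Nat.card_congr ConjAct.ofConjAct.toEquiv
    rw [h2, h3, h4] at h1
    rw [mul_comm]; exact h1
  have e1 : {x : G × G // P x.1 ∧ Commute x.1 x.2} ≃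
      Σ g : {g : G // P g}, {h : G // Commute g.1 h} :=
    { toFun := fun x => ⟨⟨x.1.1, x.2.1⟩, ⟨x.1.2, x.2.2⟩⟩
      invFun := fun y => ⟨(y.1.1, y.2.1), y.1.2, y.2.2⟩
      left_inv := fun x => rfl
      right_inv := fun y => rfl }
  rw [Nat.card_congr e1, Nat.card_sigma]
  -- group the sum by classes
  let C := {c : ConjClasses G // ∃ g, ConjClasses.mk g = c ∧ P g}
  let f : {g : G // P g} → C := fun g => ⟨ConjClasses.mk g.1, g.1, rfl, g.2⟩
  have hsum : ∀ c : C, ∑ g ∈ (Finset.univ : Finset {g : G // P g}).filter (fun g => f g = c),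
      Nat.card {h : G // Commute g.1 h} = Nat.card G := by
    intro c
    obtain ⟨c, g0, hc, hg0⟩ := c
    subst hc
    have hconst : ∀ g ∈ (Finset.univ : Finset {g : G // P g}).filter
        (fun g => f g = ⟨ConjClasses.mk g0, g0, rfl, hg0⟩),
        Nat.card {h : G // Commute g.1 h} = Nat.card {h : G // Commute g0 h} := by
      intro g hg
      rw [Finset.mem_filter] at hg
      have hg' : ConjClasses.mk g.1 = ConjClasses.mk g0 := by
        have := congrArg Subtype.val hg.2
        exact this
      have ha := hstab g.1
      have hb := hstab g0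
      rw [hg'] at ha
      have hpos : 0 < Nat.card {g' : G // ConjClasses.mk g' = ConjClasses.mk g0} := by
        haveI : Nonempty {g' : G // ConjClasses.mk g' = ConjClasses.mk g0} := ⟨⟨g0, rfl⟩⟩
        exact Nat.card_pos
      exact Nat.eq_of_mul_eq_mul_right hpos (ha.trans hb.symm)
    rw [Finset.sum_congr rfl hconst, Finset.sum_const, smul_eq_mul]
    have hcard : ((Finset.univ : Finset {g : G // P g}).filter
        (fun g => f g = ⟨ConjClasses.mk g0, g0, rfl, hg0⟩)).card =
        Nat.card {g' : G // ConjClasses.mk g' = ConjClasses.mk g0} := by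
      rw [Nat.card_eq_fintype_card, Fintype.card_subtype]
      apply Finset.card_bij (fun g _ => g.1)
      · intro g hg
        rw [Finset.mem_filter] at hg ⊢
        exact ⟨Finset.mem_univ _, congrArg Subtype.val hg.2⟩
      · intro a _ b _ h
        exact Subtype.ext h
      · intro b hb
        rw [Finset.mem_filter] at hb
        have hconj : IsConj b g0 := ConjClasses.mk_eq_mk_iff_isConj.mp hb.2
        obtain ⟨c, hc⟩ := isConj_iff.mp hconj.symm
        have hPb : P b := hc ▸ hP g0 c hg0
        refine ⟨⟨b, hPb⟩, ?_, rfl⟩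
        rw [Finset.mem_filter]
        exact ⟨Finset.mem_univ _, Subtype.ext hb.2⟩
    rw [hcard, mul_comm]
    exact hstab g0
  have hfib := Finset.sum_fiberwise_of_maps_to (s := (Finset.univ : Finset {g : G // P g}))
    (t := (Finset.univ : Finset C)) (g := f) (fun _ _ => Finset.mem_univ _)
    (fun g => Nat.card {h : G // Commute g.1 h})
  rw [← hfib, Finset.sum_congr rfl (fun c _ => hsum c), Finset.sum_const, smul_eq_mul,
    Finset.card_univ, Nat.card_eq_fintype_card (α := C)]

end Pool.Agent.helper45.Brauer
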