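import Pool.Agent.helper45.Brauer.Heis
import Pool.Agent.helper45.Brauer.Count

set_option autoImplicit false

namespace Pool.Agent.helper45.Brauer

open scoped Classical in
lemma count_pairs {S : Type} [Group S] [Finite S] (par : S →* Multiplicative (ZMod 2))
    (D : S → S → Prop) :
    Nat.card {q : (Heis × S) × (Heis × S) // Heis.par q.1.1 = par q.1.2 ∧
      Heis.par q.2.1 = par q.2.2 ∧ Commute q.1.1 q.2.1 ∧ D q.1.2 q.2.2} =
    2048 * Nat.card {r : S × S // D r.1 r.2} +
      128 * Nat.card {r : S × S // D r.1 r.2 ∧ par r.1 = 1 ∧ par r.2 = 1} := by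
  haveI : Fintype S := Fintype.ofFinite S
  have e : {q : (Heis × S) × (Heis × S) // Heis.par q.1.1 = par q.1.2 ∧
      Heis.par q.2.1 = par q.2.2 ∧ Commute q.1.1 q.2.1 ∧ D q.1.2 q.2.2} ≃
      Σ r : {r : S × S // D r.1 r.2}, {p : Heis × Heis // Heis.par p.1 = par r.1.1 ∧
        Heis.par p.2 = par r.1.2 ∧ Commute p.1 p.2} :=
    { toFun := fun q => ⟨⟨(q.1.1.2, q.1.2.2), q.2.2.2.2⟩,
        ⟨(q.1.1.1, q.1.2.1), q.2.1, q.2.2.1, q.2.2.2.1⟩⟩
      invFun := fun y => ⟨((y.2.1.1, y.1.1.1), (y.2.1.2, y.1.1.2)),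
        y.2.2.1, y.2.2.2.1, y.2.2.2.2, y.1.2⟩
      left_inv := fun q => rfl
      right_inv := fun y => rfl }
  rw [Nat.card_congr e, Nat.card_sigma]
  have hc : ∀ r : {r : S × S // D r.1 r.2}, Nat.card {p : Heis × Heis //
      Heis.par p.1 = par r.1.1 ∧ Heis.par p.2 = par r.1.2 ∧ Commute p.1 p.2} =
      2048 + if (par r.1.1 = 1 ∧ par r.1.2 = 1) then 128 else 0 := fun r => Heis.count _ _
  rw [Finset.sum_congr rfl (fun r _ => hc r), Finset.sum_add_distrib, Finset.sum_const,
    smul_eq_mul, ← Finset.sum_filter, Finset.sum_const, smul_eq_mul, Finset.card_univ,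
    ← Nat.card_eq_fintype_card, mul_comm]
  congr 1
  rw [mul_comm]
  congr 1
  rw [← Fintype.card_subtype, ← Nat.card_eq_fintype_card]
  apply Nat.card_congr
  exact { toFun := fun x => ⟨x.1.1, x.1.2, x.2⟩
          invFun := fun x => ⟨⟨x.1, x.2.1⟩, x.2.2⟩
          left_inv := fun x => rfl
          right_inv := fun x => rfl }

/-- Number of commuting ordered pairs in a subgroup. -/
noncomputable def comm {S : Type} [Group S] (K : Subgroup S) : ℕ :=
  Nat.card {p : K × K // Commute p.1 p.2}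

lemma comm_eq {S : Type} [Group S] (K : Subgroup S) :
    comm K = Nat.card {r : S × S // (r.1 ∈ K ∧ r.2 ∈ K) ∧ Commute r.1 r.2} := by
  unfold comm
  apply Nat.card_congr
  exact { toFun := fun p => ⟨(p.1.1.1, p.1.2.1), ⟨p.1.1.2, p.1.2.2⟩, by
            have := p.2
            exact congrArg Subtype.val this.eq⟩
          invFun := fun r => ⟨(⟨r.1.1, r.2.1.1⟩, ⟨r.1.2, r.2.1.2⟩), Subtype.ext r.2.2.eq⟩
          left_inv := fun x => rfl
          right_inv := fun x => rfl }

/-- The fibre product of the Heisenberg group of order 128 with `S` over the group of order 2. -/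
def FP {S : Type} [Group S] (par : S →* Multiplicative (ZMod 2)) : Subgroup (Heis × S) where
  carrier := {x | Heis.par x.1 = par x.2}
  one_mem' := by simp
  mul_mem' := by
    intro a b ha hb
    simp only [Set.mem_setOf_eq] at ha hb ⊢
    simp [ha, hb]
  inv_mem' := by
    intro a ha
    simp only [Set.mem_setOf_eq] at ha ⊢
    simp [ha]

lemma mem_FP {S : Type} [Group S] (par : S →* Multiplicative (ZMod 2)) (x : Heis × S) :
    x ∈ FP par ↔ Heis.par x.1 = par x.2 := Iff.rfl

/-- Number of pairs in the fibre product lying over a subgroup `K`. -/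
lemma card_over {S : Type} [Group S] [Finite S] (par : S →* Multiplicative (ZMod 2))
    (K : Subgroup S) :
    Nat.card {x : Heis × S // Heis.par x.1 = par x.2 ∧ x.2 ∈ K} = 64 * Nat.card K := by
  haveI : Fintype S := Fintype.ofFinite S
  classical
  have e : {x : Heis × S // Heis.par x.1 = par x.2 ∧ x.2 ∈ K} ≃
      Σ s : K, {x : Heis // Heis.par x = par s.1} :=
    { toFun := fun x => ⟨⟨x.1.2, x.2.2⟩, ⟨x.1.1, x.2.1⟩⟩
      invFun := fun y => ⟨(y.2.1, y.1.1), y.2.2, y.1.2⟩
      left_inv := fun x => rfl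
      right_inv := fun x => rfl }
  rw [Nat.card_congr e, Nat.card_sigma, Finset.sum_congr rfl (fun s _ => Heis.card_fiber _),
    Finset.sum_const, smul_eq_mul, Finset.card_univ, ← Nat.card_eq_fintype_card, mul_comm]

end Pool.Agent.helper45.Brauer
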