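import Mathlib

set_option autoImplicit false

namespace Pool.Agent.helper45.Brauer

/-- The extraspecial group of order `2^7`, as a Heisenberg group over the field with two
elements. -/
@[ext] structure Heis where
  z : ZMod 2
  a0 : ZMod 2
  a1 : ZMod 2
  a2 : ZMod 2
  b0 : ZMod 2
  b1 : ZMod 2
  b2 : ZMod 2

namespace Heis

instance : One Heis := ⟨⟨0, 0, 0, 0, 0, 0, 0⟩⟩
instance : Mul Heis := ⟨fun x y => ⟨x.z + y.z + (x.a0 * y.b0 + x.a1 * y.b1 + x.a2 * y.b2),
  x.a0 + y.a0, x.a1 + y.a1, x.a2 + y.a2, x.b0 + y.b0, x.b1 + y.b1, x.b2 + y.b2⟩⟩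
instance : Inv Heis := ⟨fun x => ⟨-x.z + (x.a0 * x.b0 + x.a1 * x.b1 + x.a2 * x.b2),
  -x.a0, -x.a1, -x.a2, -x.b0, -x.b1, -x.b2⟩⟩

@[simp] lemma one_z : (1 : Heis).z = 0 := rfl
@[simp] lemma one_a0 : (1 : Heis).a0 = 0 := rfl
@[simp] lemma one_a1 : (1 : Heis).a1 = 0 := rfl
@[simp] lemma one_a2 : (1 : Heis).a2 = 0 := rfl
@[simp] lemma one_b0 : (1 : Heis).b0 = 0 := rfl
@[simp] lemma one_b1 : (1 : Heis).b1 = 0 := rfl
@[simp] lemma one_b2 : (1 : Heis).b2 = 0 := rfl
@[simp] lemma mul_z (x y : Heis) :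
  (x * y).z = x.z + y.z + (x.a0 * y.b0 + x.a1 * y.b1 + x.a2 * y.b2) := rfl
@[simp] lemma mul_a0 (x y : Heis) : (x * y).a0 = x.a0 + y.a0 := rfl
@[simp] lemma mul_a1 (x y : Heis) : (x * y).a1 = x.a1 + y.a1 := rfl
@[simp] lemma mul_a2 (x y : Heis) : (x * y).a2 = x.a2 + y.a2 := rfl
@[simp] lemma mul_b0 (x y : Heis) : (x * y).b0 = x.b0 + y.b0 := rfl
@[simp] lemma mul_b1 (x y : Heis) : (x * y).b1 = x.b1 + y.b1 := rfl
@[simp] lemma mul_b2 (x y : Heis) : (x * y).b2 = x.b2 + y.b2 := rfl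
@[simp] lemma inv_z (x : Heis) :
  (x⁻¹).z = -x.z + (x.a0 * x.b0 + x.a1 * x.b1 + x.a2 * x.b2) := rfl
@[simp] lemma inv_a0 (x : Heis) : (x⁻¹).a0 = -x.a0 := rfl
@[simp] lemma inv_a1 (x : Heis) : (x⁻¹).a1 = -x.a1 := rfl
@[simp] lemma inv_a2 (x : Heis) : (x⁻¹).a2 = -x.a2 := rfl
@[simp] lemma inv_b0 (x : Heis) : (x⁻¹).b0 = -x.b0 := rfl
@[simp] lemma inv_b1 (x : Heis) : (x⁻¹).b1 = -x.b1 := rfl
@[simp] lemma inv_b2 (x : Heis) : (x⁻¹).b2 = -x.b2 := rfl

instance : Group Heis where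
  mul_assoc x y z := by
    ext <;> simp <;> ring
  one_mul x := by ext <;> simp
  mul_one x := by ext <;> simp
  inv_mul_cancel x := by
    ext
    · simp only [mul_z, inv_z, inv_a0, inv_a1, inv_a2, one_z]; ring
    · simp only [mul_a0, inv_a0, one_a0]; ring
    · simp only [mul_a1, inv_a1, one_a1]; ring
    · simp only [mul_a2, inv_a2, one_a2]; ring
    · simp only [mul_b0, inv_b0, one_b0]; ring
    · simp only [mul_b1, inv_b1, one_b1]; ring
    · simp only [mul_b2, inv_b2, one_b2]; ring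

/-- `Heis` as a product of seven copies of the two-element field. -/
def equivProd : Heis ≃ (ZMod 2 × ZMod 2) × (ZMod 2 × ZMod 2 × ZMod 2 × ZMod 2 × ZMod 2) where
  toFun x := ((x.z, x.a0), (x.a1, x.a2, x.b0, x.b1, x.b2))
  invFun y := ⟨y.1.1, y.1.2, y.2.1, y.2.2.1, y.2.2.2.1, y.2.2.2.2.1, y.2.2.2.2.2⟩
  left_inv _ := rfl
  right_inv _ := rfl

instance : Finite Heis := Finite.of_equiv _ equivProd.symm

lemma card : Nat.card Heis = 128 := by
  rw [Nat.card_congr equivProd]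
  simp [Nat.card_prod]

lemma commute_iff (x y : Heis) : Commute x y ↔
    x.a0 * y.b0 + x.a1 * y.b1 + x.a2 * y.b2 = y.a0 * x.b0 + y.a1 * x.b1 + y.a2 * x.b2 := by
  constructor
  · intro h
    have h1 := congrArg Heis.z h.eq
    simp only [mul_z] at h1
    linear_combination h1
  · intro h
    show x * y = y * x
    ext
    · simp only [mul_z]; linear_combination h
    all_goals simp [add_comm]

/-- The parity homomorphism `a₀`. -/
def par : Heis →* Multiplicative (ZMod 2) where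
  toFun x := Multiplicative.ofAdd x.a0
  map_one' := rfl
  map_mul' _ _ := rfl

lemma par_eq_iff (x : Heis) (i : Multiplicative (ZMod 2)) :
    par x = i ↔ x.a0 = Multiplicative.toAdd i := by
  show Multiplicative.ofAdd x.a0 = i ↔ _
  exact ⟨fun h => by rw [← h]; rfl, fun h => by rw [h]; rfl⟩

lemma pow_four (x : Heis) : x ^ 4 = 1 := by
  have h2 : (2 : ZMod 2) = 0 := rfl
  have e : x ^ 4 = (x * x) * (x * x) := by
    rw [← mul_assoc]
    simp only [pow_succ, pow_zero, one_mul]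
  rw [e]
  ext
  · simp only [mul_z, mul_a0, mul_a1, mul_a2, mul_b0, mul_b1, mul_b2, one_z]
    linear_combination (2 * x.z + 3 * (x.a0 * x.b0 + x.a1 * x.b1 + x.a2 * x.b2)) * h2
  · simp only [mul_a0, one_a0]; linear_combination (2 * x.a0) * h2
  · simp only [mul_a1, one_a1]; linear_combination (2 * x.a1) * h2
  · simp only [mul_a2, one_a2]; linear_combination (2 * x.a2) * h2
  · simp only [mul_b0, one_b0]; linear_combination (2 * x.b0) * h2
  · simp only [mul_b1, one_b1]; linear_combination (2 * x.b1) * h2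
  · simp only [mul_b2, one_b2]; linear_combination (2 * x.b2) * h2

lemma card_fiber (i : Multiplicative (ZMod 2)) : Nat.card {x : Heis // par x = i} = 64 := by
  have e : {x : Heis // par x = i} ≃ ZMod 2 × (ZMod 2 × ZMod 2 × ZMod 2 × ZMod 2 × ZMod 2) :=
    { toFun := fun x => (x.1.z, (x.1.a1, x.1.a2, x.1.b0, x.1.b1, x.1.b2))
      invFun := fun y => ⟨⟨y.1, Multiplicative.toAdd i, y.2.1, y.2.2.1, y.2.2.2.1, y.2.2.2.2.1,
        y.2.2.2.2.2⟩, by rw [par_eq_iff]⟩
      left_inv := fun x => by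
        have := x.2
        rw [par_eq_iff] at this
        apply Subtype.ext
        ext <;> simp [this]
      right_inv := fun y => rfl }
  rw [Nat.card_congr e]
  simp [Nat.card_prod]

abbrev T5 := ZMod 2 × ZMod 2 × ZMod 2 × ZMod 2 × ZMod 2

/-- The reduced commuting condition. -/
def cond (i j : ZMod 2) (x y : T5) : Bool :=
  decide (i * y.2.2.1 + x.1 * y.2.2.2.1 + x.2.1 * y.2.2.2.2 =
    j * x.2.2.1 + y.1 * x.2.2.2.1 + y.2.1 * x.2.2.2.2)

lemma count_eq (i j : Multiplicative (ZMod 2)) :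
    Nat.card {p : Heis × Heis // par p.1 = i ∧ par p.2 = j ∧ Commute p.1 p.2} =
      4 * Fintype.card {q : T5 × T5 // cond (Multiplicative.toAdd i) (Multiplicative.toAdd j)
        q.1 q.2 = true} := by
  have e : {p : Heis × Heis // par p.1 = i ∧ par p.2 = j ∧ Commute p.1 p.2} ≃
      (ZMod 2 × ZMod 2) × {q : T5 × T5 // cond (Multiplicative.toAdd i) (Multiplicative.toAdd j)
        q.1 q.2 = true} :=
    { toFun := fun p => ((p.1.1.z, p.1.2.z), ⟨((p.1.1.a1, p.1.1.a2, p.1.1.b0, p.1.1.b1, p.1.1.b2),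
          (p.1.2.a1, p.1.2.a2, p.1.2.b0, p.1.2.b1, p.1.2.b2)), by
            obtain ⟨⟨x, y⟩, h1, h2, h3⟩ := p
            rw [par_eq_iff] at h1 h2
            rw [commute_iff] at h3
            simp only [cond, decide_eq_true_eq]
            simp only at h1 h2 h3 ⊢
            rw [← h1, ← h2]
            exact h3⟩)
      invFun := fun q => ⟨(⟨q.1.1, Multiplicative.toAdd i, q.2.1.1.1, q.2.1.1.2.1, q.2.1.1.2.2.1,
          q.2.1.1.2.2.2.1, q.2.1.1.2.2.2.2⟩, ⟨q.1.2, Multiplicative.toAdd j, q.2.1.2.1,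
          q.2.1.2.2.1, q.2.1.2.2.2.1, q.2.1.2.2.2.2.1, q.2.1.2.2.2.2.2⟩), by
            obtain ⟨⟨z1, z2⟩, ⟨⟨x, y⟩, h⟩⟩ := q
            refine ⟨by rw [par_eq_iff], by rw [par_eq_iff], ?_⟩
            rw [commute_iff]
            simp only [cond, decide_eq_true_eq] at h
            exact h⟩
      left_inv := fun p => by
        obtain ⟨⟨x, y⟩, h1, h2, h3⟩ := p
        rw [par_eq_iff] at h1 h2
        apply Subtype.ext
        simp only at h1 h2 ⊢
        refine Prod.ext ?_ ?_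
        · ext <;> simp [h1]
        · ext <;> simp [h2]
      right_inv := fun q => rfl }
  rw [Nat.card_congr e, Nat.card_prod, Nat.card_eq_fintype_card]
  simp [Nat.card_eq_fintype_card]

set_option maxRecDepth 100000 in
lemma count_00 : Nat.card {p : Heis × Heis // par p.1 = 1 ∧ par p.2 = 1 ∧ Commute p.1 p.2}
    = 2176 := by
  rw [count_eq]
  have : Fintype.card {q : T5 × T5 // cond 0 0 q.1 q.2 = true} = 544 := by
    decide +kernel
  exact congrArg (4 * ·) this

set_option maxRecDepth 100000 in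
lemma count_ne (i j : Multiplicative (ZMod 2)) (h : ¬ (i = 1 ∧ j = 1)) :
    Nat.card {p : Heis × Heis // par p.1 = i ∧ par p.2 = j ∧ Commute p.1 p.2} = 2048 := by
  rw [count_eq]
  have h01 : Fintype.card {q : T5 × T5 // cond 0 1 q.1 q.2 = true} = 512 := by
    decide +kernel
  have h10 : Fintype.card {q : T5 × T5 // cond 1 0 q.1 q.2 = true} = 512 := by
    decide +kernel
  have h11 : Fintype.card {q : T5 × T5 // cond 1 1 q.1 q.2 = true} = 512 := by
    decide +kernel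
  have key : ∀ a b : ZMod 2, ¬ (a = 0 ∧ b = 0) →
      4 * Fintype.card {q : T5 × T5 // cond a b q.1 q.2 = true} = 2048 := by
    intro a b hab
    fin_cases a <;> fin_cases b
    · exact absurd ⟨rfl, rfl⟩ hab
    · exact congrArg (4 * ·) h01
    · exact congrArg (4 * ·) h10
    · exact congrArg (4 * ·) h11
  exact key _ _ (fun hh => h ⟨hh.1, hh.2⟩)

lemma count (i j : Multiplicative (ZMod 2)) [Decidable (i = 1 ∧ j = 1)] :
    Nat.card {p : Heis × Heis // par p.1 = i ∧ par p.2 = j ∧ Commute p.1 p.2} =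
      2048 + if i = 1 ∧ j = 1 then 128 else 0 := by
  split_ifs with h
  · obtain ⟨rfl, rfl⟩ := h
    rw [count_00]
  · rw [count_ne i j h]

end Heis

end Pool.Agent.helper45.Brauer
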