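import Pool.Agent.helper45.Brauer.SGroup
import Pool.Agent.helper45.Brauer.Fibre

set_option autoImplicit false

namespace Pool.Agent.helper45.Brauer

section general

variable {G G' : Type} [Group G] [Group G']

lemma comm_map (f : G →* G') (hf : Function.Injective f) (K : Subgroup G) :
    comm (K.map f) = comm K := by
  unfold comm
  symm
  apply Nat.card_congr
  let e := K.equivMapOfInjective f hf
  refine Equiv.subtypeEquiv (Equiv.prodCongr e.toEquiv e.toEquiv) ?_
  intro p
  simp only [Equiv.prodCongr_apply, Prod.map, MulEquiv.toEquiv_eq_coe, EquivLike.coe_coe]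
  constructor
  · intro h
    exact h.map e
  · intro h
    have h2 := h.map e.symm
    simpa using h2

lemma comm_le_sq [Finite G] (K : Subgroup G) : comm K ≤ Nat.card K * Nat.card K := by
  unfold comm
  rw [← Nat.card_prod]
  exact Nat.card_le_card_of_injective _ Subtype.val_injective

/-- `comm K` as a sum of centralizer orders. -/
lemma comm_eq_sum (K : Subgroup G) [Fintype K] :
    comm K = ∑ t : K, Nat.card {u : K // Commute t u} := by
  unfold comm
  rw [← Nat.card_sigma]
  apply Nat.card_congr
  exact { toFun := fun p => ⟨p.1.1, p.1.2, p.2⟩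
          invFun := fun p => ⟨(p.1, p.2.1), p.2.2⟩
          left_inv := fun x => rfl
          right_inv := fun x => rfl }

end general

/-- Boolean commutation test on codes. -/
def commc (c d : ℕ) : Bool := Nat.beq (mulc c d) (mulc d c)

lemma commc_of_commute {s t : S} (h : Commute s t) : commc (code s.1) (code t.1) = true := by
  unfold commc
  rw [← code_mul, ← code_mul]
  have h1 : s.1 * t.1 = t.1 * s.1 := congrArg Subtype.val h.eq
  rw [h1]
  exact Nat.beq_refl _

/-- Upper bound for the size of a subset of `S` whose codes lie in a list. -/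
lemma card_le_of_code (X : S → Prop) (L : List ℕ) (h : ∀ s, X s → code s.1 ∈ L) :
    Nat.card {s : S // X s} ≤ L.length := by
  classical
  have h1 : Nat.card {s : S // X s} ≤ Nat.card {c : ℕ // c ∈ L.toFinset} := by
    apply Nat.card_le_card_of_injective (fun s : {s : S // X s} =>
      (⟨code s.1.1, by rw [List.mem_toFinset]; exact h s.1 s.2⟩ : {c : ℕ // c ∈ L.toFinset}))
    intro s t hst
    simp only [Subtype.mk.injEq] at hst
    exact Subtype.ext (Subtype.ext (code_injective hst))
  refine h1.trans ?_
  rw [Nat.card_eq_fintype_card, Fintype.card_coe]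
  exact L.toFinset_card_le

/-- The same for pairs. -/
lemma card_pairs_le (X : S → S → Prop) (L : List (ℕ × ℕ))
    (h : ∀ s t, X s t → (code s.1, code t.1) ∈ L) :
    Nat.card {p : S × S // X p.1 p.2} ≤ L.length := by
  classical
  have h1 : Nat.card {p : S × S // X p.1 p.2} ≤ Nat.card {c : ℕ × ℕ // c ∈ L.toFinset} := by
    apply Nat.card_le_card_of_injective (fun p : {p : S × S // X p.1 p.2} =>
      (⟨(code p.1.1.1, code p.1.2.1), by rw [List.mem_toFinset]; exact h _ _ p.2⟩ :
        {c : ℕ × ℕ // c ∈ L.toFinset}))
    intro s t hst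
    have h2 := congrArg Subtype.val hst
    simp only [Prod.mk.injEq] at h2
    apply Subtype.ext
    exact Prod.ext (Subtype.ext (code_injective h2.1)) (Subtype.ext (code_injective h2.2))
  refine h1.trans ?_
  rw [Nat.card_eq_fintype_card, Fintype.card_coe]
  exact L.toFinset_card_le

/-- Centralizer count inside a list. -/
def cen (L : List ℕ) (c : ℕ) : ℕ := (L.filter (fun d => commc c d)).length

lemma card_cen_le (K : Subgroup S) (L : List ℕ) (hK : ∀ s ∈ K, code s.1 ∈ L) (t : K) :
    Nat.card {u : K // Commute t u} ≤ cen L (code t.1.1) := by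
  have h1 : Nat.card {u : K // Commute t u} ≤ Nat.card {s : S // s ∈ K ∧ Commute t.1 s} := by
    apply Nat.card_le_card_of_injective (fun u : {u : K // Commute t u} =>
      (⟨u.1.1, u.1.2, congrArg Subtype.val u.2.eq⟩ : {s : S // s ∈ K ∧ Commute t.1 s}))
    intro a b hab
    apply Subtype.ext
    apply Subtype.ext
    exact congrArg (fun x => x.1) hab
  refine h1.trans ?_
  apply card_le_of_code
  intro s hs
  rw [List.mem_filter]
  exact ⟨hK s hs.1, commc_of_commute hs.2⟩

lemma card_cen_le_card (K : Subgroup S) (t : K) :
    Nat.card {u : K // Commute t u} ≤ Nat.card K :=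
  Nat.card_le_card_of_injective _ Subtype.val_injective

/-- The two central codes. -/
def LA : List ℕ := LN.filter (fun c => !(Nat.ble (cen LN c) 10))
/-- The ten codes with big centralizer. -/
def LB : List ℕ := LN.filter (fun c => !(Nat.ble (cen LN c) 8))

lemma LA_length : LA.length = 2 := by decide +kernel
lemma LB_length : LB.length = 10 := by decide +kernel

open scoped Classical in
/-- Subgroups of the normalizer of a Sylow 5-subgroup have at most ten classes. -/
theorem comm_le_of_LN (K : Subgroup S) (hK : ∀ s ∈ K, code s.1 ∈ LN) :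
    comm K ≤ 10 * Nat.card K := by
  haveI : Fintype K := Fintype.ofFinite K
  by_cases h10 : Nat.card K ≤ 10
  · exact (comm_le_sq K).trans (Nat.mul_le_mul_right _ h10)
  push Not at h10
  rw [comm_eq_sum]
  have hb : ∀ t : K, Nat.card {u : K // Commute t u} ≤
      8 + ((if code t.1.1 ∈ LB then 2 else 0) + (if code t.1.1 ∈ LA then Nat.card K - 10 else 0)) := by
    intro t
    have h1 := card_cen_le K LN hK t
    have h2 := card_cen_le_card K t
    have hc := hK t.1 t.2
    by_cases hB : code t.1.1 ∈ LB
    · by_cases hA : code t.1.1 ∈ LA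
      · rw [if_pos hB, if_pos hA]; omega
      · rw [if_pos hB, if_neg hA]
        have : cen LN (code t.1.1) ≤ 10 := by
          by_contra hcon
          apply hA
          unfold LA
          rw [List.mem_filter]
          refine ⟨hc, ?_⟩
          rw [Bool.not_eq_true', Bool.eq_false_iff]
          exact fun h => hcon (Nat.le_of_ble_eq_true h)
        omega
    · have : cen LN (code t.1.1) ≤ 8 := by
        by_contra hcon
        apply hB
        unfold LB
        rw [List.mem_filter]
        refine ⟨hc, ?_⟩
        rw [Bool.not_eq_true', Bool.eq_false_iff]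
        exact fun h => hcon (Nat.le_of_ble_eq_true h)
      rw [if_neg hB]
      omega
  refine (Finset.sum_le_sum (fun t _ => hb t)).trans ?_
  rw [Finset.sum_add_distrib, Finset.sum_add_distrib, Finset.sum_const, ← Finset.sum_filter,
    ← Finset.sum_filter, Finset.sum_const, Finset.sum_const, Finset.card_univ,
    ← Nat.card_eq_fintype_card]
  simp only [smul_eq_mul]
  have hBc : ((Finset.univ : Finset K).filter (fun t => code t.1.1 ∈ LB)).card ≤ 10 := by
    rw [← Fintype.card_subtype, ← Nat.card_eq_fintype_card]
    have h1 : Nat.card {t : K // code t.1.1 ∈ LB} ≤ Nat.card {s : S // code s.1 ∈ LB} := by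
      apply Nat.card_le_card_of_injective (fun u : {t : K // code t.1.1 ∈ LB} =>
        (⟨u.1.1, u.2⟩ : {s : S // code s.1 ∈ LB}))
      intro a b hab
      apply Subtype.ext
      apply Subtype.ext
      exact congrArg (fun x => x.1) hab
    have h2 := card_le_of_code (fun s => code s.1 ∈ LB) LB (fun s hs => hs)
    rw [LB_length] at h2
    exact h1.trans h2
  have hAc : ((Finset.univ : Finset K).filter (fun t => code t.1.1 ∈ LA)).card ≤ 2 := by
    rw [← Fintype.card_subtype, ← Nat.card_eq_fintype_card]
    have h1 : Nat.card {t : K // code t.1.1 ∈ LA} ≤ Nat.card {s : S // code s.1 ∈ LA} := by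
      apply Nat.card_le_card_of_injective (fun u : {t : K // code t.1.1 ∈ LA} =>
        (⟨u.1.1, u.2⟩ : {s : S // code s.1 ∈ LA}))
      intro a b hab
      apply Subtype.ext
      apply Subtype.ext
      exact congrArg (fun x => x.1) hab
    have h2 := card_le_of_code (fun s => code s.1 ∈ LA) LA (fun s hs => hs)
    rw [LA_length] at h2
    exact h1.trans h2
  have e1 : ((Finset.univ : Finset K).filter (fun t => code t.1.1 ∈ LA)).card *
      (Nat.card K - 10) ≤ 2 * (Nat.card K - 10) := Nat.mul_le_mul_right _ hAc
  omega

end Pool.Agent.helper45.Brauer
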