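import Pool.Agent.helper45.Brauer.SA1

set_option autoImplicit false

namespace Pool.Agent.helper45.Brauer

/-- The stabilizer of a pair of points: a Sylow 2-subgroup of `S`. -/
def P0 : Subgroup S where
  carrier := {s | (s.1 0 = 0 ∧ s.1 9 = 9) ∨ (s.1 0 = 9 ∧ s.1 9 = 0)}
  one_mem' := by left; exact ⟨rfl, rfl⟩
  mul_mem' := by
    intro s t hs ht
    simp only [Set.mem_setOf_eq, Subgroup.coe_mul, Equiv.Perm.mul_apply] at *
    rcases hs with ⟨a, b⟩ | ⟨a, b⟩ <;> rcases ht with ⟨c, d⟩ | ⟨c, d⟩ <;> simp [a, b, c, d]
  inv_mem' := by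
    intro s hs
    simp only [Set.mem_setOf_eq] at *
    rcases hs with ⟨a, b⟩ | ⟨a, b⟩
    · left
      exact ⟨by rw [InvMemClass.coe_inv, Equiv.Perm.inv_eq_iff_eq, a],
        by rw [InvMemClass.coe_inv, Equiv.Perm.inv_eq_iff_eq, b]⟩
    · right
      exact ⟨by rw [InvMemClass.coe_inv, Equiv.Perm.inv_eq_iff_eq, b],
        by rw [InvMemClass.coe_inv, Equiv.Perm.inv_eq_iff_eq, a]⟩

/-- Membership in `P0` on codes. -/
def condP (c : ℕ) : Bool :=
  (Nat.beq (dig c 0) 0 && Nat.beq (dig c 9) 9) || (Nat.beq (dig c 0) 9 && Nat.beq (dig c 9) 0)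

lemma mem_P0_iff (s : S) : s ∈ P0 ↔ condP (code s.1) = true := by
  have e0 := dig_code s.1 0 (by norm_num)
  have e9 := dig_code s.1 9 (by norm_num)
  have hbeq : ∀ a b : ℕ, (Nat.beq a b = true) ↔ a = b :=
    fun a b => ⟨Nat.eq_of_beq_eq_true, fun h => by rw [h]; exact Nat.beq_refl _⟩
  unfold condP
  simp only [Bool.or_eq_true, Bool.and_eq_true, hbeq, e0, e9]
  show ((s.1 0 = 0 ∧ s.1 9 = 9) ∨ (s.1 0 = 9 ∧ s.1 9 = 0)) ↔ _
  simp only [Fin.ext_iff]
  rfl

lemma checkP : allBelow (fun j => !(condP (entry j)) || LP.elem (entry j)) 1440 = true := by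
  decide +kernel

lemma code_mem_LP (s : S) (hs : s ∈ P0) : code s.1 ∈ LP := by
  have h := forall_S (fun c => !(condP c) || LP.elem c) checkP s
  rw [mem_P0_iff] at hs
  simp only [hs, Bool.not_true, Bool.false_or] at h
  exact List.elem_iff.1 h

lemma LP_length : LP.length = 32 := by decide +kernel

lemma LP_nodup : LP.Nodup := by decide +kernel

lemma LP_spec : ∀ c ∈ LP, lookup c < 1440 ∧ entry (lookup c) = c ∧ condP c = true := by
  have h : LP.all (fun c => Nat.blt (lookup c) 1440 && (Nat.beq (entry (lookup c)) c && condP c))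
      = true := by decide +kernel
  intro c hc
  have h2 := List.all_eq_true.1 h c hc
  simp only [Bool.and_eq_true] at h2
  exact ⟨by simpa [Nat.blt_eq] using h2.1, Nat.eq_of_beq_eq_true h2.2.1, h2.2.2⟩

theorem card_P0 : Nat.card P0 = 32 := by
  apply le_antisymm
  · have h := card_le_of_code (fun s => s ∈ P0) LP code_mem_LP
    rw [LP_length] at h
    exact h
  · have hex : ∀ c : {c : ℕ // c ∈ LP.toFinset}, ∃ s : S, s ∈ P0 ∧ code s.1 = c.1 := by
      intro c
      have hc := LP_spec c.1 (List.mem_toFinset.1 c.2)
      obtain ⟨s, hs⟩ := exists_of_lookup c.1 hc.1 hc.2.1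
      exact ⟨s, by rw [mem_P0_iff, hs]; exact hc.2.2, hs⟩
    choose f hf1 hf2 using hex
    have hinj : Function.Injective (fun c : {c : ℕ // c ∈ LP.toFinset} =>
        (⟨f c, hf1 c⟩ : P0)) := by
      intro c d hcd
      simp only [Subtype.mk.injEq] at hcd
      apply Subtype.ext
      rw [← hf2 c, ← hf2 d, hcd]
    have h := Nat.card_le_card_of_injective _ hinj
    rw [Nat.card_eq_fintype_card, Fintype.card_coe, List.toFinset_card_of_nodup LP_nodup,
      LP_length] at h
    exact h

/-- Commuting pairs of codes in a list. -/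
def cpairs (L : List ℕ) : List (ℕ × ℕ) :=
  (L.product L).filter (fun p => commc p.1 p.2)

lemma comm_le_cpairs (K : Subgroup S) (L : List ℕ) (hK : ∀ s ∈ K, code s.1 ∈ L) :
    comm K ≤ (cpairs L).length := by
  rw [comm_eq]
  apply card_pairs_le (fun s t => (s ∈ K ∧ t ∈ K) ∧ Commute s t)
  intro s t h
  unfold cpairs
  rw [List.mem_filter]
  exact ⟨List.mem_product.2 ⟨hK s h.1.1, hK t h.1.2⟩, commc_of_commute h.2⟩

lemma cpairs_LP : (cpairs LP).length = 352 := by decide +kernel

/-- The sixteen codes in the list fixing the two extra points. -/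
def LP0 : List ℕ := LP.filter (fun c => Nat.beq (dig c 10) 10)

lemma cpairs_LP0 : (cpairs LP0).length = 112 := by decide +kernel

lemma comm_P0 : comm P0 ≤ 352 := by
  have h := comm_le_cpairs P0 LP code_mem_LP
  rw [cpairs_LP] at h
  exact h

lemma comm_P0_ker : comm (P0 ⊓ par.ker) ≤ 112 := by
  have h := comm_le_cpairs (P0 ⊓ par.ker) LP0 (by
    intro s hs
    unfold LP0
    rw [List.mem_filter]
    refine ⟨code_mem_LP s hs.1, ?_⟩
    have h2 : par s = 1 := hs.2
    rw [par_eq_one_iff] at h2
    rw [dig_code s.1 10 (by norm_num)]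
    have : s.1 ⟨10, by norm_num⟩ = 10 := h2
    rw [this]
    rfl)
  rw [cpairs_LP0] at h
  exact h

/-- The eight codes with centralizer of order at least 16 in the list. -/
def LE : List ℕ := LP.filter (fun c => !(Nat.ble (cen LP c) 8))

lemma LE_length : LE.length = 8 := by decide +kernel

open scoped Classical in
theorem comm_le_16 (K : Subgroup S) (hK : K ≤ P0) (h16 : Nat.card K = 16) :
    comm K ≤ 160 := by
  haveI : Fintype K := Fintype.ofFinite K
  haveI : Fintype P0 := Fintype.ofFinite P0
  -- the centre is small
  have hZle : Nat.card (Subgroup.center K) ≤ 8 := by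
    have h1 : Nat.card (Subgroup.center K) ≤ Nat.card {s : S // code s.1 ∈ LE} := by
      apply Nat.card_le_card_of_injective (fun z : Subgroup.center K =>
        (⟨z.1.1, by
          have hzP : z.1.1 ∈ P0 := hK z.1.2
          have hcen : 16 ≤ cen LP (code z.1.1.1) := by
            have e1 := card_cen_le P0 LP code_mem_LP ⟨z.1.1, hzP⟩
            refine le_trans ?_ e1
            rw [← h16]
            apply Nat.card_le_card_of_injective (fun u : K =>
              (⟨⟨u.1, hK u.2⟩, by
                have hc := (Subgroup.mem_center_iff.1 z.2) u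
                apply Subtype.ext
                have hc' := congrArg Subtype.val hc
                exact hc'.symm⟩ : {u : P0 // Commute (⟨z.1.1, hzP⟩ : P0) u}))
            intro a b hab
            simp only [Subtype.mk.injEq] at hab
            exact Subtype.ext hab
          unfold LE
          rw [List.mem_filter]
          refine ⟨code_mem_LP _ hzP, ?_⟩
          rw [Bool.not_eq_true', Bool.eq_false_iff]
          intro h
          have := Nat.le_of_ble_eq_true h
          omega⟩ : {s : S // code s.1 ∈ LE}))
      intro a b hab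
      simp only [Subtype.mk.injEq] at hab
      exact Subtype.ext (Subtype.ext hab)
    have h2 := card_le_of_code (fun s => code s.1 ∈ LE) LE (fun s hs => hs)
    rw [LE_length] at h2
    exact h1.trans h2
  have hdvd : Nat.card (Subgroup.center K) ∣ 16 := by
    rw [← h16]; exact Subgroup.card_subgroup_dvd_card _
  have hZ4 : Nat.card (Subgroup.center K) ≤ 4 := by
    by_contra hcon
    push Not at hcon
    have h8 : Nat.card (Subgroup.center K) = 8 := by
      obtain ⟨c, hc⟩ := hdvd
      have hc2 : c ≤ 3 := by
        by_contra h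
        push Not at h
        nlinarith
      interval_cases c <;> omega
    have hidx : Nat.card (K ⧸ Subgroup.center K) = 2 := by
      have := Subgroup.card_eq_card_quotient_mul_card_subgroup (Subgroup.center K)
      rw [h16, h8] at this
      omega
    haveI : Fact (Nat.Prime 2) := ⟨Nat.prime_two⟩
    haveI : IsCyclic (K ⧸ Subgroup.center K) := isCyclic_of_prime_card hidx
    have hcomm : ∀ a b : K, a * b = b * a :=
      commutative_of_cyclic_center_quotient (QuotientGroup.mk' (Subgroup.center K))
        (by rw [QuotientGroup.ker_mk'])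
    have htop : Subgroup.center K = ⊤ := by
      rw [eq_top_iff]
      intro a _
      rw [Subgroup.mem_center_iff]
      intro b
      exact hcomm b a
    rw [htop, Subgroup.card_top, h16] at h8
    omega
  -- noncentral elements have centralizer of order at most 8
  have hb : ∀ t : K, Nat.card {u : K // Commute t u} ≤
      8 + (if t ∈ Subgroup.center K then 8 else 0) := by
    intro t
    by_cases ht : t ∈ Subgroup.center K
    · rw [if_pos ht]
      have := card_cen_le_card K t
      omega
    · rw [if_neg ht]
      have e1 : Nat.card {u : K // Commute t u} = Nat.card (Subgroup.centralizer {t} : Subgroup K) := by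
        apply Nat.card_congr
        refine Equiv.subtypeEquiv (Equiv.refl _) ?_
        intro u
        simp only [Equiv.refl_apply, Subgroup.mem_centralizer_iff, Set.mem_singleton_iff,
          forall_eq]
        rfl
      rw [e1]
      have hd : Nat.card (Subgroup.centralizer {t} : Subgroup K) ∣ 16 := by
        rw [← h16]; exact Subgroup.card_subgroup_dvd_card _
      have hne : Nat.card (Subgroup.centralizer {t} : Subgroup K) ≠ 16 := by
        intro h
        apply ht
        have htop : (Subgroup.centralizer {t} : Subgroup K) = ⊤ :=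
          Subgroup.eq_top_of_card_eq _ (by rw [h, h16])
        rw [Subgroup.mem_center_iff]
        intro g
        have hg : g ∈ (Subgroup.centralizer {t} : Subgroup K) := by rw [htop]; trivial
        rw [Subgroup.mem_centralizer_iff] at hg
        exact (hg t rfl).symm
      obtain ⟨c, hc⟩ := hd
      have hc1 : 2 ≤ c := by
        by_contra h
        push Not at h
        interval_cases c
        · omega
        · omega
      nlinarith
  rw [comm_eq_sum]
  refine (Finset.sum_le_sum (fun t _ => hb t)).trans ?_
  rw [Finset.sum_add_distrib, Finset.sum_const, ← Finset.sum_filter, Finset.sum_const,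
    Finset.card_univ, ← Nat.card_eq_fintype_card, h16]
  have hcount : ((Finset.univ : Finset K).filter (fun t => t ∈ Subgroup.center K)).card ≤ 4 := by
    rw [← Fintype.card_subtype, ← Nat.card_eq_fintype_card]
    exact hZ4
  simp only [smul_eq_mul]
  omega

end Pool.Agent.helper45.Brauer
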