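import Pool.Agent.helper45.Brauer.SA2

set_option autoImplicit false

namespace Pool.Agent.helper45.Brauer

lemma cx_spec : lookup cx < 1440 ∧ entry (lookup cx) = cx := by decide +kernel

/-- An element of order 5. -/
noncomputable def x0 : S := (exists_of_lookup cx cx_spec.1 cx_spec.2).choose

lemma code_x0 : code x0.1 = cx := (exists_of_lookup cx cx_spec.1 cx_spec.2).choose_spec

def cx2 : ℕ := mulc cx cx
def cx3 : ℕ := mulc cx2 cx
def cx4 : ℕ := mulc cx3 cx

lemma code_pow_two (s : S) : code (s ^ 2).1 = mulc (code s.1) (code s.1) := by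
  rw [← code_mul, pow_two]; rfl

lemma code_pow_three (s : S) : code (s ^ 3).1 = mulc (mulc (code s.1) (code s.1)) (code s.1) := by
  rw [← code_mul, ← code_mul, pow_succ, pow_two]; rfl

lemma code_pow_four (s : S) : code (s ^ 4).1 =
    mulc (mulc (mulc (code s.1) (code s.1)) (code s.1)) (code s.1) := by
  rw [← code_mul, ← code_mul, ← code_mul, pow_succ, pow_succ, pow_two]; rfl

lemma code_mul' (s t : S) : code (s * t).1 = mulc (code s.1) (code t.1) := code_mul _ _

lemma code_x02 : code (x0 ^ 2).1 = cx2 := by rw [code_pow_two, code_x0]; rfl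
lemma code_x03 : code (x0 ^ 3).1 = cx3 := by rw [code_pow_three, code_x0]; rfl
lemma code_x04 : code (x0 ^ 4).1 = cx4 := by rw [code_pow_four, code_x0]; rfl

lemma code_one' : code (1 : S).1 = cid := code_one

lemma eq_of_code {s t : S} (h : code s.1 = code t.1) : s = t := Subtype.ext (code_injective h)

lemma x0_pow_five : x0 ^ 5 = 1 := by
  apply eq_of_code
  rw [pow_succ, code_mul', code_x04, code_x0, code_one']
  decide +kernel

lemma x0_ne_one : x0 ≠ 1 := by
  intro h
  have h1 := code_x0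
  rw [h, code_one'] at h1
  have h2 : ¬ (cid = cx) := by decide +kernel
  exact h2 h1

lemma orderOf_x0 : orderOf x0 = 5 := by
  haveI : Fact (Nat.Prime 5) := ⟨by norm_num⟩
  exact orderOf_eq_prime x0_pow_five x0_ne_one

/-- Either `y` is a power of `x0`, or it is not of order 5, or some word has order
divisible by three. -/
def condY (y : ℕ) : Bool :=
  (fun y2 => (fun y3 => (fun y4 =>
    !(Nat.beq (mulc y4 y) cid) ||
    ((Nat.beq y cid || (Nat.beq y cx || (Nat.beq y cx2 || (Nat.beq y cx3 || Nat.beq y cx4)))) ||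
    (!(Nat.beq (pow160 (mulc cx y)) cid) ||
    (!(Nat.beq (pow160 (mulc cx y2)) cid) ||
    (!(Nat.beq (pow160 (mulc (mulc cx y) (mulc cx2 y4))) cid) ||
      !(Nat.beq (pow160 (mulc (mulc cx y2) (mulc cx2 y3))) cid))))))
    (mulc y3 y)) (mulc y2 y)) (mulc y y)

lemma condY_all : allBelow (fun j => condY (entry j)) 1440 = true := by decide +kernel

lemma beq_iff (a b : ℕ) : (Nat.beq a b = true) ↔ a = b :=
  ⟨Nat.eq_of_beq_eq_true, fun h => by rw [h]; exact Nat.beq_refl _⟩

lemma beq_code_iff (s t : S) : (Nat.beq (code s.1) (code t.1) = true) ↔ s = t := by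
  rw [beq_iff]
  exact ⟨eq_of_code, fun h => by rw [h]⟩

lemma code_pow160' (s : S) : code (s ^ 160).1 = pow160 (code s.1) := code_pow160 s.1

lemma power_of_x0 (y : S) (h5 : y ^ 5 = 1) (h1 : (x0 * y) ^ 160 = 1)
    (h2 : (x0 * y ^ 2) ^ 160 = 1) (h3 : ((x0 * y) * (x0 ^ 2 * y ^ 4)) ^ 160 = 1)
    (h4 : ((x0 * y ^ 2) * (x0 ^ 2 * y ^ 3)) ^ 160 = 1) :
    y = 1 ∨ y = x0 ∨ y = x0 ^ 2 ∨ y = x0 ^ 3 ∨ y = x0 ^ 4 := by
  have h := forall_S condY condY_all y
  unfold condY at h
  simp only at h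
  rw [← code_pow_two] at h
  have e3 : mulc (code (y ^ 2).1) (code y.1) = code (y ^ 3).1 := by rw [code_pow_two, code_pow_three]
  rw [e3] at h
  have e4 : mulc (code (y ^ 3).1) (code y.1) = code (y ^ 4).1 := by
    rw [code_pow_three, code_pow_four]
  rw [e4] at h
  have e5 : mulc (code (y ^ 4).1) (code y.1) = code (y ^ 5).1 := by
    rw [pow_succ y 4, code_mul']
  rw [e5, ← code_x02, ← code_x03, ← code_x04, ← code_x0, ← code_one', ← code_mul', ← code_mul',
    ← code_mul', ← code_mul', ← code_mul', ← code_mul', ← code_pow160', ← code_pow160',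
    ← code_pow160', ← code_pow160', h1, h2, h3, h4, h5] at h
  simp only [Bool.or_eq_true, Bool.not_eq_true', Bool.eq_false_iff, ne_eq, beq_code_iff,
    not_true_eq_false, false_or, or_false] at h
  exact h

/-- Membership in the normalizer of `⟨x0⟩`, on codes. -/
def condN (c : ℕ) : Bool :=
  Nat.beq (mulc c cx) c || (Nat.beq (mulc c cx) (mulc cx c) || (Nat.beq (mulc c cx) (mulc cx2 c) ||
    (Nat.beq (mulc c cx) (mulc cx3 c) || Nat.beq (mulc c cx) (mulc cx4 c))))

lemma condN_all : allBelow (fun j => !(condN (entry j)) || LN.elem (entry j)) 1440 = true := by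
  decide +kernel

lemma code_mem_LN (t : S) (h : t * x0 = t ∨ t * x0 = x0 * t ∨ t * x0 = x0 ^ 2 * t ∨
    t * x0 = x0 ^ 3 * t ∨ t * x0 = x0 ^ 4 * t) : code t.1 ∈ LN := by
  have h1 := forall_S (fun c => !(condN c) || LN.elem c) condN_all t
  have h2 : condN (code t.1) = true := by
    unfold condN
    rw [← code_x02, ← code_x03, ← code_x04, ← code_x0, ← code_mul', ← code_mul', ← code_mul',
      ← code_mul', ← code_mul']
    simp only [Bool.or_eq_true, beq_code_iff]
    exact h
  simp only [h2, Bool.not_true, Bool.false_or] at h1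
  exact List.elem_iff.1 h1

/-- A 3'-subgroup containing `x0` has at most ten conjugacy classes. -/
theorem comm_le_of_x0 (K : Subgroup S) (hdvd : Nat.card K ∣ 160) (hx : x0 ∈ K) :
    comm K ≤ 10 * Nat.card K := by
  have hpow : ∀ w ∈ K, w ^ 160 = 1 := by
    intro w hw
    have h1 : (⟨w, hw⟩ : K) ^ Nat.card K = 1 := pow_card_eq_one'
    obtain ⟨m, hm⟩ := hdvd
    have h2 : w ^ Nat.card K = 1 := congrArg Subtype.val h1
    rw [hm, pow_mul, h2, one_pow]
  apply comm_le_of_LN
  intro t ht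
  have hy : t * x0 * t⁻¹ ∈ K := K.mul_mem (K.mul_mem ht hx) (K.inv_mem ht)
  have hy5 : (t * x0 * t⁻¹) ^ 5 = 1 := by
    rw [conj_pow, x0_pow_five, mul_one, mul_inv_cancel]
  have h := power_of_x0 (t * x0 * t⁻¹) hy5 (hpow _ (K.mul_mem hx hy))
    (hpow _ (K.mul_mem hx (K.pow_mem hy 2)))
    (hpow _ (K.mul_mem (K.mul_mem hx hy) (K.mul_mem (K.pow_mem hx 2) (K.pow_mem hy 4))))
    (hpow _ (K.mul_mem (K.mul_mem hx (K.pow_mem hy 2)) (K.mul_mem (K.pow_mem hx 2)
      (K.pow_mem hy 3))))
  apply code_mem_LN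
  simp only [mul_inv_eq_iff_eq_mul, one_mul] at h
  exact h

end Pool.Agent.helper45.Brauer
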