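import Pool.Agent.helper45.Brauer.SA3

set_option autoImplicit false

namespace Pool.Agent.helper45.Brauer

lemma fact_1440_2 : (Nat.card S).factorization 2 = 5 := by
  rw [card_S]
  have : (1440 : ℕ) = 2 ^ 5 * 45 := by norm_num
  rw [this, Nat.factorization_mul (by norm_num) (by norm_num), Nat.Prime.factorization_pow
    Nat.prime_two]
  simp [Nat.factorization_eq_zero_of_not_dvd (show ¬ 2 ∣ 45 by norm_num)]

lemma fact_1440_5 : (Nat.card S).factorization 5 = 1 := by
  rw [card_S]
  have : (1440 : ℕ) = 5 ^ 1 * 288 := by norm_num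
  rw [this, Nat.factorization_mul (by norm_num) (by norm_num), Nat.Prime.factorization_pow
    (by norm_num : Nat.Prime 5)]
  simp [Nat.factorization_eq_zero_of_not_dvd (show ¬ 5 ∣ 288 by norm_num)]

/-- Conjugate of a subgroup. -/
abbrev conjBy (g : S) (K : Subgroup S) : Subgroup S := K.map (MulAut.conj g).toMonoidHom

lemma comm_conjBy (g : S) (K : Subgroup S) : comm (conjBy g K) = comm K :=
  comm_map _ (MulAut.conj g).injective K

lemma card_conjBy (g : S) (K : Subgroup S) : Nat.card (conjBy g K) = Nat.card K :=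
  (Nat.card_congr (K.equivMapOfInjective _ (MulAut.conj g).injective).toEquiv).symm

lemma conjBy_inf_ker (g : S) (K : Subgroup S) :
    conjBy g (K ⊓ par.ker) = conjBy g K ⊓ par.ker := by
  rw [conjBy, Subgroup.map_inf _ _ _ (MulAut.conj g).injective]
  congr 1
  ext x
  constructor
  · rintro ⟨y, hy, rfl⟩
    have : (MulAut.conj g).toMonoidHom y = g * y * g⁻¹ := rfl
    rw [this]
    exact (inferInstance : par.ker.Normal).conj_mem y hy g
  · intro hx
    refine ⟨g⁻¹ * x * g, ?_, ?_⟩
    · have := (inferInstance : par.ker.Normal).conj_mem x hx g⁻¹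
      simpa using this
    · show g * (g⁻¹ * x * g) * g⁻¹ = x
      group

lemma smul_sylow (p : ℕ) (g : S) (Q : Sylow p S) :
    ((g • Q : Sylow p S) : Subgroup S) = conjBy g (Q : Subgroup S) := rfl

theorem SA (K : Subgroup S) (h3 : ¬ 3 ∣ Nat.card K) :
    comm K ≤ 10 * Nat.card K ∨
      (Nat.card K = 32 ∧ comm K ≤ 352 ∧ comm (K ⊓ par.ker) ≤ 112) := by
  haveI : Fact (Nat.Prime 2) := ⟨Nat.prime_two⟩
  haveI : Fact (Nat.Prime 5) := ⟨by norm_num⟩
  have hd : Nat.card K ∣ 1440 := by
    rw [← card_S]; exact Subgroup.card_subgroup_dvd_card K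
  have hcop : Nat.Coprime (Nat.card K) 9 := by
    have h : Nat.Coprime (Nat.card K) 3 := by
      rw [Nat.coprime_comm]
      exact (Nat.Prime.coprime_iff_not_dvd (by norm_num)).2 h3
    have e : (9 : ℕ) = 3 ^ 2 := by norm_num
    rw [e]
    exact Nat.Coprime.pow_right 2 h
  have h160 : Nat.card K ∣ 160 := by
    have e : 1440 = 160 * 9 := by norm_num
    rw [e] at hd
    exact hcop.dvd_of_dvd_mul_right hd
  by_cases h5 : 5 ∣ Nat.card K
  · left
    obtain ⟨x, hx⟩ := exists_prime_orderOf_dvd_card' 5 h5
    have hx' : orderOf x.1 = 5 := by rw [Subgroup.orderOf_coe]; exact hx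
    have c1 : Nat.card (Subgroup.zpowers x.1) = 5 ^ (Nat.card S).factorization 5 := by
      rw [Nat.card_zpowers, hx', fact_1440_5]; norm_num
    have c0 : Nat.card (Subgroup.zpowers x0) = 5 ^ (Nat.card S).factorization 5 := by
      rw [Nat.card_zpowers, orderOf_x0, fact_1440_5]; norm_num
    let Q1 : Sylow 5 S := Sylow.ofCard (Subgroup.zpowers x.1) c1
    let Q0 : Sylow 5 S := Sylow.ofCard (Subgroup.zpowers x0) c0
    obtain ⟨g, hg⟩ := MulAction.exists_smul_eq S Q1 Q0
    have hg' : conjBy g (Subgroup.zpowers x.1) = Subgroup.zpowers x0 := by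
      have h := congrArg (fun Q : Sylow 5 S => (Q : Subgroup S)) hg
      exact h
    have hx0 : x0 ∈ conjBy g K := by
      have h1 : x0 ∈ conjBy g (Subgroup.zpowers x.1) := by
        rw [hg']; exact Subgroup.mem_zpowers x0
      exact Subgroup.map_mono (by rw [Subgroup.zpowers_le]; exact x.2) h1
    have h := comm_le_of_x0 (conjBy g K) (by rw [card_conjBy]; exact h160) hx0
    rw [comm_conjBy, card_conjBy] at h
    exact h
  · have hcop5 : Nat.Coprime (Nat.card K) 5 := by
      rw [Nat.coprime_comm]
      exact (Nat.Prime.coprime_iff_not_dvd (by norm_num)).2 h5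
    have h32 : Nat.card K ∣ 32 := by
      have e : 160 = 32 * 5 := by norm_num
      rw [e] at h160
      exact hcop5.dvd_of_dvd_mul_right h160
    by_cases h8 : Nat.card K ≤ 10
    · left
      exact (comm_le_sq K).trans (Nat.mul_le_mul_right _ h8)
    push Not at h8
    have hpg : IsPGroup 2 K := by
      have e : (32 : ℕ) = 2 ^ 5 := by norm_num
      rw [e] at h32
      obtain ⟨k, _, hk⟩ := (Nat.dvd_prime_pow Nat.prime_two).1 h32
      exact IsPGroup.of_card hk
    obtain ⟨Q, hQ⟩ := hpg.exists_le_sylow
    have cP : Nat.card P0 = 2 ^ (Nat.card S).factorization 2 := by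
      rw [card_P0, fact_1440_2]; norm_num
    let QP : Sylow 2 S := Sylow.ofCard P0 cP
    obtain ⟨g, hg⟩ := MulAction.exists_smul_eq S Q QP
    have hg' : conjBy g (Q : Subgroup S) = P0 := by
      have h := congrArg (fun Q : Sylow 2 S => (Q : Subgroup S)) hg
      exact h
    have hle : conjBy g K ≤ P0 := by
      rw [← hg']; exact Subgroup.map_mono hQ
    have hcases : Nat.card K = 16 ∨ Nat.card K = 32 := by
      obtain ⟨c, hc⟩ := h32
      have hc2 : c ≤ 2 := by
        by_contra h
        push Not at h
        nlinarith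
      interval_cases c <;> omega
    rcases hcases with h | h
    · left
      have h1 := comm_le_16 (conjBy g K) hle (by rw [card_conjBy, h])
      rw [comm_conjBy] at h1
      rw [h]; exact h1
    · right
      have heq : conjBy g K = P0 := by
        apply SetLike.coe_injective
        apply Set.eq_of_subset_of_ncard_le
        · exact hle
        · rw [← Nat.card_coe_set_eq, ← Nat.card_coe_set_eq]
          show Nat.card P0 ≤ Nat.card (conjBy g K)
          rw [card_conjBy, card_P0, h]
        · exact Set.toFinite _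
      refine ⟨h, ?_, ?_⟩
      · rw [← comm_conjBy g K, heq]
        exact comm_P0
      · rw [← comm_conjBy g (K ⊓ par.ker), conjBy_inf_ker, heq]
        exact comm_P0_ker

end Pool.Agent.helper45.Brauer
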