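import Pool.Agent.helper45.Brauer.Checks

set_option autoImplicit false

namespace Pool.Agent.helper45.Brauer

/-- `x ↦ w x` on the projective line over the field with nine elements. -/
def g1 : Equiv.Perm (Fin 12) where
  toFun := ![0, 2, 3, 4, 5, 6, 7, 8, 1, 9, 10, 11]
  invFun := ![0, 8, 1, 2, 3, 4, 5, 6, 7, 9, 10, 11]
  left_inv := by decide
  right_inv := by decide

/-- `x ↦ x + 1`. -/
def g2 : Equiv.Perm (Fin 12) where
  toFun := ![1, 5, 3, 8, 7, 0, 4, 6, 2, 9, 10, 11]
  invFun := ![5, 0, 8, 2, 6, 1, 7, 4, 3, 9, 10, 11]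
  left_inv := by decide
  right_inv := by decide

/-- `x ↦ -1/x`. -/
def g3 : Equiv.Perm (Fin 12) where
  toFun := ![9, 5, 4, 3, 2, 1, 8, 7, 6, 0, 10, 11]
  invFun := ![9, 5, 4, 3, 2, 1, 8, 7, 6, 0, 10, 11]
  left_inv := by decide
  right_inv := by decide

/-- `x ↦ x^3`, together with a swap of two extra points. -/
def g4 : Equiv.Perm (Fin 12) where
  toFun := ![0, 1, 4, 7, 2, 5, 8, 3, 6, 9, 11, 10]
  invFun := ![0, 1, 4, 7, 2, 5, 8, 3, 6, 9, 11, 10]
  left_inv := by decide
  right_inv := by decide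

lemma code_g1 : code g1 = cg1 := by decide +kernel
lemma code_g2 : code g2 = cg2 := by decide +kernel
lemma code_g3 : code g3 = cg3 := by decide +kernel
lemma code_g4 : code g4 = cg4 := by decide +kernel

/-- A group of order 1440 (`PΓL(2,9)`) acting on 10 + 2 points. -/
def SS : Subgroup (Equiv.Perm (Fin 12)) := Subgroup.closure {g1, g2, g3, g4}

abbrev S : Type := ↥SS

lemma entry_lookup_gen {g j : ℕ} (h : okGen g j = true) :
    lookup (mulc g (entry j)) < 1440 ∧ entry (lookup (mulc g (entry j))) = mulc g (entry j) := by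
  unfold okGen at h
  simp only [Bool.and_eq_true] at h
  exact ⟨by simpa [Nat.blt_eq] using h.2, Nat.eq_of_beq_eq_true h.1⟩

lemma check1_spec {j : ℕ} (hj : j < 1440) : lookup (entry j) = j ∧ okGen cg1 j = true ∧
    okGen cg2 j = true ∧ okGen cg3 j = true ∧ okGen cg4 j = true := by
  have h := allBelow_spec _ _ check1_all j hj
  unfold check1 at h
  simp only [Bool.and_eq_true] at h
  exact ⟨Nat.eq_of_beq_eq_true h.1, h.2.1, h.2.2.1, h.2.2.2.1, h.2.2.2.2⟩

lemma mem_table_mul {g σ : Equiv.Perm (Fin 12)} (hg : g ∈ ({g1, g2, g3, g4} : Set _))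
    (hσ : ∃ j, j < 1440 ∧ entry j = code σ) : ∃ j, j < 1440 ∧ entry j = code (g * σ) := by
  obtain ⟨j, hj, he⟩ := hσ
  obtain ⟨_, h1, h2, h3, h4⟩ := check1_spec hj
  rw [code_mul, ← he]
  rcases hg with rfl | rfl | rfl | rfl
  · rw [code_g1]; exact ⟨_, entry_lookup_gen h1⟩
  · rw [code_g2]; exact ⟨_, entry_lookup_gen h2⟩
  · rw [code_g3]; exact ⟨_, entry_lookup_gen h3⟩
  · rw [code_g4]; exact ⟨_, entry_lookup_gen h4⟩

lemma entry_zero : entry 0 = cid := by decide +kernel

lemma mem_table (s : Equiv.Perm (Fin 12)) (hs : s ∈ SS) : ∃ j, j < 1440 ∧ entry j = code s := by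
  have key : ∀ s ∈ Submonoid.closure ({g1, g2, g3, g4} : Set (Equiv.Perm (Fin 12))),
      ∃ j, j < 1440 ∧ entry j = code s := by
    intro s hs
    induction hs using Submonoid.closure_induction_left with
    | one => exact ⟨0, by norm_num, by rw [code_one, entry_zero]⟩
    | mul_left x hx y _ ih => exact mem_table_mul hx ih
  apply key
  rw [← Subgroup.closure_toSubmonoid_of_finite]
  exact hs

lemma check2_spec {j : ℕ} (hj : j < 1440) (h0 : j ≠ 0) : ∃ p k, p < j ∧
    entry j = mulc (genOf k) (entry p) := by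
  have h := allBelow_spec _ _ check2_all j hj
  unfold check2 at h
  simp only [Bool.or_eq_true, Bool.and_eq_true] at h
  rcases h with h | h
  · exact absurd (Nat.eq_of_beq_eq_true h) h0
  · exact ⟨_, _, by simpa [Nat.blt_eq] using h.1, Nat.eq_of_beq_eq_true h.2⟩

lemma genOf_spec (k : ℕ) : ∃ g ∈ SS, code g = genOf k := by
  unfold genOf
  split_ifs
  · exact ⟨g1, Subgroup.subset_closure (by simp), code_g1⟩
  · exact ⟨g2, Subgroup.subset_closure (by simp), code_g2⟩
  · exact ⟨g3, Subgroup.subset_closure (by simp), code_g3⟩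
  · exact ⟨g4, Subgroup.subset_closure (by simp), code_g4⟩

lemma exists_of_index (j : ℕ) (hj : j < 1440) : ∃ s ∈ SS, code s = entry j := by
  induction j using Nat.strong_induction_on with
  | _ j ih =>
    by_cases h0 : j = 0
    · subst h0
      exact ⟨1, SS.one_mem, by rw [code_one, entry_zero]⟩
    · obtain ⟨p, k, hp, he⟩ := check2_spec hj h0
      obtain ⟨s, hs, hs'⟩ := ih p hp (by omega)
      obtain ⟨g, hg, hg'⟩ := genOf_spec k
      exact ⟨g * s, SS.mul_mem hg hs, by rw [code_mul, hg', hs', he]⟩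

/-- Any code accepted by the table is the code of an element of `S`. -/
lemma exists_of_lookup (c : ℕ) (h1 : lookup c < 1440) (h2 : entry (lookup c) = c) :
    ∃ s : S, code s.1 = c := by
  obtain ⟨s, hs, hs'⟩ := exists_of_index _ h1
  exact ⟨⟨s, hs⟩, by rw [hs', h2]⟩

lemma lookup_code (s : S) : lookup (code s.1) < 1440 ∧ entry (lookup (code s.1)) = code s.1 := by
  obtain ⟨j, hj, he⟩ := mem_table s.1 s.2
  have := (check1_spec hj).1
  rw [← he, this]
  exact ⟨hj, rfl⟩

lemma code_val_injective : Function.Injective (fun s : S => code s.1) :=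
  fun _ _ h => Subtype.ext (code_injective h)

theorem card_S : Nat.card S = 1440 := by
  have e : S ≃ Fin 1440 := by
    refine Equiv.ofBijective (fun s => ⟨lookup (code s.1), (lookup_code s).1⟩) ⟨?_, ?_⟩
    · intro s t h
      apply code_val_injective
      have h' : lookup (code s.1) = lookup (code t.1) := congrArg Fin.val h
      show code s.1 = code t.1
      rw [← (lookup_code s).2, ← (lookup_code t).2, h']
    · intro j
      obtain ⟨s, hs, hs'⟩ := exists_of_index j.1 j.2
      refine ⟨⟨s, hs⟩, ?_⟩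
      apply Fin.ext
      show lookup (code s) = j.1
      rw [hs', (check1_spec j.2).1]
  rw [Nat.card_congr e, Nat.card_eq_fintype_card, Fintype.card_fin]

/-- To prove something about the codes of all elements of `S`, check the table. -/
lemma forall_S (f : ℕ → Bool) (h : allBelow (fun j => f (entry j)) 1440 = true) (s : S) :
    f (code s.1) = true := by
  obtain ⟨j, hj, he⟩ := mem_table s.1 s.2
  rw [← he]
  exact allBelow_spec _ _ h j hj

/-- The action on the two extra points. -/
lemma extra (s : S) : (s.1 10 = 10 ∧ s.1 11 = 11) ∨ (s.1 10 = 11 ∧ s.1 11 = 10) := by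
  obtain ⟨s, hs⟩ := s
  have h1 : ∀ g ∈ ({g1, g2, g3, g4} : Set (Equiv.Perm (Fin 12))),
      (g 10 = 10 ∧ g 11 = 11) ∨ (g 10 = 11 ∧ g 11 = 10) := by
    intro g hg
    rcases hg with rfl | rfl | rfl | rfl <;> decide
  show (s 10 = 10 ∧ s 11 = 11) ∨ (s 10 = 11 ∧ s 11 = 10)
  unfold SS at hs
  induction hs using Subgroup.closure_induction with
  | mem x hx => exact h1 x hx
  | one => left; exact ⟨rfl, rfl⟩
  | mul x y _ _ hx hy =>
    simp only [Equiv.Perm.mul_apply]
    rcases hx with ⟨a, b⟩ | ⟨a, b⟩ <;> rcases hy with ⟨c, d⟩ | ⟨c, d⟩ <;> simp [a, b, c, d]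
  | inv x _ hx =>
    rcases hx with ⟨a, b⟩ | ⟨a, b⟩
    · left; exact ⟨by rw [Equiv.Perm.inv_eq_iff_eq, a], by rw [Equiv.Perm.inv_eq_iff_eq, b]⟩
    · right; exact ⟨by rw [Equiv.Perm.inv_eq_iff_eq, b], by rw [Equiv.Perm.inv_eq_iff_eq, a]⟩

/-- The homomorphism onto the group of order two whose kernel is `PGL(2,9)`. -/
def par : S →* Multiplicative (ZMod 2) where
  toFun s := if s.1 10 = 10 then 1 else Multiplicative.ofAdd 1
  map_one' := by simp
  map_mul' s t := by
    have h1 : (Multiplicative.ofAdd 1 : Multiplicative (ZMod 2)) * Multiplicative.ofAdd 1 = 1 := by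
      decide
    rcases extra s with ⟨a, b⟩ | ⟨a, b⟩ <;> rcases extra t with ⟨c, d⟩ | ⟨c, d⟩ <;>
      simp [a, b, c, d, h1]

lemma par_eq_one_iff (s : S) : par s = 1 ↔ s.1 10 = 10 := by
  show (if s.1 10 = 10 then (1 : Multiplicative (ZMod 2)) else Multiplicative.ofAdd 1) = 1 ↔ _
  split_ifs with h
  · simp [h]
  · simp only [h, iff_false]
    decide

lemma par_surjective : Function.Surjective par := by
  intro b
  have hb : b = 1 ∨ b = Multiplicative.ofAdd 1 := by
    revert b; decide
  rcases hb with rfl | rfl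
  · exact ⟨1, map_one _⟩
  · refine ⟨⟨g4, Subgroup.subset_closure (by simp)⟩, ?_⟩
    show (if g4 10 = 10 then (1 : Multiplicative (ZMod 2)) else Multiplicative.ofAdd 1) = _
    rw [if_neg (by decide)]

end Pool.Agent.helper45.Brauer
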