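import Pool.Agent.helper45.Brauer.Fibre

set_option autoImplicit false

namespace Pool.Agent.helper45.Brauer

section general

variable {A B : Type} [Group A] [Group B] [Finite A] [Finite B]

/-- The part of a subgroup of `A × B` lying in the first factor. -/
def fstKer (H : Subgroup (A × B)) : Subgroup A := H.comap (MonoidHom.inl A B)

lemma mem_fstKer (H : Subgroup (A × B)) (a : A) : a ∈ fstKer H ↔ (a, (1 : B)) ∈ H := Iff.rfl

/-- The projection to the second factor. -/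
def sndMap (H : Subgroup (A × B)) : Subgroup B := H.map (MonoidHom.snd A B)

lemma mem_sndMap (H : Subgroup (A × B)) (b : B) : b ∈ sndMap H ↔ ∃ a, (a, b) ∈ H := by
  constructor
  · rintro ⟨⟨a, b'⟩, h, rfl⟩
    exact ⟨a, h⟩
  · rintro ⟨a, h⟩
    exact ⟨(a, b), h, rfl⟩

lemma card_eq_mul (H : Subgroup (A × B)) :
    Nat.card H = Nat.card (fstKer H) * Nat.card (sndMap H) := by
  classical
  have hsec : ∀ b : sndMap H, ∃ a, (a, b.1) ∈ H := fun b => (mem_sndMap H b.1).1 b.2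
  choose σ hσ using hsec
  rw [← Nat.card_prod]
  apply Nat.card_congr
  refine
    { toFun := fun h => (⟨h.1.1 * (σ ⟨h.1.2, (mem_sndMap H _).2 ⟨_, h.2⟩⟩)⁻¹, ?_⟩,
        ⟨h.1.2, (mem_sndMap H _).2 ⟨_, h.2⟩⟩)
      invFun := fun p => ⟨(p.1.1 * σ p.2, p.2.1), ?_⟩
      left_inv := ?_
      right_inv := ?_ }
  · rw [mem_fstKer]
    have h1 := hσ ⟨h.1.2, (mem_sndMap H _).2 ⟨_, h.2⟩⟩
    have h2 := H.mul_mem h.2 (H.inv_mem h1)
    have e : (h.1 * (σ ⟨h.1.2, (mem_sndMap H _).2 ⟨_, h.2⟩⟩, h.1.2)⁻¹ : A × B) =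
        (h.1.1 * (σ ⟨h.1.2, (mem_sndMap H _).2 ⟨_, h.2⟩⟩)⁻¹, 1) := by
      refine Prod.ext rfl ?_
      exact mul_inv_cancel _
    rw [e] at h2
    exact h2
  · have h1 := H.mul_mem ((mem_fstKer H _).1 p.1.2) (hσ p.2)
    simpa using h1
  · intro h
    apply Subtype.ext
    simp
  · intro p
    refine Prod.ext ?_ ?_
    · apply Subtype.ext
      simp
    · simp

lemma comm_le (H : Subgroup (A × B)) :
    comm H ≤ Nat.card (fstKer H) * Nat.card (fstKer H) * comm (sndMap H) := by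
  classical
  have hsec : ∀ b : sndMap H, ∃ a, (a, b.1) ∈ H := fun b => (mem_sndMap H b.1).1 b.2
  choose σ hσ using hsec
  unfold comm
  rw [← Nat.card_prod, ← Nat.card_prod]
  have hmem : ∀ h : H, h.1.1 * (σ ⟨h.1.2, (mem_sndMap H _).2 ⟨_, h.2⟩⟩)⁻¹ ∈ fstKer H := by
    intro h
    rw [mem_fstKer]
    have h1 := hσ ⟨h.1.2, (mem_sndMap H _).2 ⟨_, h.2⟩⟩
    have h2 := H.mul_mem h.2 (H.inv_mem h1)
    have e : (h.1 * (σ ⟨h.1.2, (mem_sndMap H _).2 ⟨_, h.2⟩⟩, h.1.2)⁻¹ : A × B) =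
        (h.1.1 * (σ ⟨h.1.2, (mem_sndMap H _).2 ⟨_, h.2⟩⟩)⁻¹, 1) := by
      refine Prod.ext rfl ?_
      exact mul_inv_cancel _
    rw [e] at h2
    exact h2
  let f : {p : H × H // Commute p.1 p.2} →
      (fstKer H × fstKer H) × {p : sndMap H × sndMap H // Commute p.1 p.2} := fun p =>
    ((⟨_, hmem p.1.1⟩, ⟨_, hmem p.1.2⟩),
      ⟨(⟨p.1.1.1.2, (mem_sndMap H _).2 ⟨_, p.1.1.2⟩⟩, ⟨p.1.2.1.2, (mem_sndMap H _).2 ⟨_, p.1.2.2⟩⟩), by
        apply Subtype.ext
        have := congrArg Subtype.val p.2.eq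
        exact congrArg Prod.snd this⟩)
  apply Nat.card_le_card_of_injective f
  intro p q hpq
  have h1 : p.1.1.1.2 = q.1.1.1.2 := congrArg (fun x => x.2.1.1.1) hpq
  have h2 : p.1.2.1.2 = q.1.2.1.2 := congrArg (fun x => x.2.1.2.1) hpq
  have h3 : p.1.1.1.1 * (σ ⟨p.1.1.1.2, (mem_sndMap H _).2 ⟨_, p.1.1.2⟩⟩)⁻¹ =
    q.1.1.1.1 * (σ ⟨q.1.1.1.2, (mem_sndMap H _).2 ⟨_, q.1.1.2⟩⟩)⁻¹ :=
      congrArg (fun x => x.1.1.1) hpq
  have h4 : p.1.2.1.1 * (σ ⟨p.1.2.1.2, (mem_sndMap H _).2 ⟨_, p.1.2.2⟩⟩)⁻¹ =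
    q.1.2.1.1 * (σ ⟨q.1.2.1.2, (mem_sndMap H _).2 ⟨_, q.1.2.2⟩⟩)⁻¹ :=
      congrArg (fun x => x.1.2.1) hpq
  have e1 : (⟨p.1.1.1.2, (mem_sndMap H _).2 ⟨_, p.1.1.2⟩⟩ : sndMap H) =
    ⟨q.1.1.1.2, (mem_sndMap H _).2 ⟨_, q.1.1.2⟩⟩ := Subtype.ext h1
  have e2 : (⟨p.1.2.1.2, (mem_sndMap H _).2 ⟨_, p.1.2.2⟩⟩ : sndMap H) =
    ⟨q.1.2.1.2, (mem_sndMap H _).2 ⟨_, q.1.2.2⟩⟩ := Subtype.ext h2
  rw [e1] at h3
  rw [e2] at h4
  apply Subtype.ext
  refine Prod.ext ?_ ?_
  · apply Subtype.ext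
    exact Prod.ext (mul_right_cancel h3) h1
  · apply Subtype.ext
    exact Prod.ext (mul_right_cancel h4) h2

end general

lemma comm_inf_le {S : Type} [Group S] [Finite S] (K L : Subgroup S) : comm (K ⊓ L) ≤ comm K := by
  rw [comm_eq, comm_eq]
  apply Nat.card_le_card_of_injective
    (fun (r : {r : S × S // (r.1 ∈ K ⊓ L ∧ r.2 ∈ K ⊓ L) ∧ Commute r.1 r.2}) =>
      (⟨r.1, ⟨r.2.1.1.1, r.2.1.2.1⟩, r.2.2⟩ :
        {r : S × S // (r.1 ∈ K ∧ r.2 ∈ K) ∧ Commute r.1 r.2}))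
  intro a b h
  apply Subtype.ext
  have h' := congrArg Subtype.val h
  exact h'

section fibre

variable {S : Type} [Group S] [Finite S] (par : S →* Multiplicative (ZMod 2))

lemma card_par_ker : Nat.card Heis.par.ker = 64 := Heis.card_fiber 1

lemma fstKer_le (H : Subgroup (Heis × S)) (hH : H ≤ FP par) : fstKer H ≤ Heis.par.ker := by
  intro a ha
  have h := hH ha
  rw [mem_FP] at h
  rw [MonoidHom.mem_ker]
  simpa using h

lemma mem_of_full (H : Subgroup (Heis × S)) (hH : H ≤ FP par)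
    (hfull : fstKer H = Heis.par.ker) (x : Heis × S) :
    x ∈ H ↔ Heis.par x.1 = par x.2 ∧ x.2 ∈ sndMap H := by
  constructor
  · intro h
    exact ⟨hH h, (mem_sndMap H _).2 ⟨_, h⟩⟩
  · rintro ⟨h1, h2⟩
    obtain ⟨a, ha⟩ := (mem_sndMap H _).1 h2
    have ha' : Heis.par a = par x.2 := hH ha
    have h3 : x.1 * a⁻¹ ∈ fstKer H := by
      rw [hfull, MonoidHom.mem_ker, map_mul, map_inv, h1, ha', mul_inv_cancel]
    have h4 := H.mul_mem ((mem_fstKer H _).1 h3) ha
    simpa using h4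

lemma comm_full (H : Subgroup (Heis × S)) (hH : H ≤ FP par)
    (hfull : fstKer H = Heis.par.ker) :
    comm H = 2048 * comm (sndMap H) + 128 * comm (sndMap H ⊓ par.ker) := by
  have h := count_pairs par (fun s t => (s ∈ sndMap H ∧ t ∈ sndMap H) ∧ Commute s t)
  rw [comm_eq, comm_eq, comm_eq]
  have e1 : Nat.card {r : (Heis × S) × (Heis × S) // (r.1 ∈ H ∧ r.2 ∈ H) ∧ Commute r.1 r.2} =
      Nat.card {q : (Heis × S) × (Heis × S) // Heis.par q.1.1 = par q.1.2 ∧
      Heis.par q.2.1 = par q.2.2 ∧ Commute q.1.1 q.2.1 ∧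
      ((q.1.2 ∈ sndMap H ∧ q.2.2 ∈ sndMap H) ∧ Commute q.1.2 q.2.2)} := by
    apply Nat.card_congr
    refine Equiv.subtypeEquiv (Equiv.refl _) ?_
    intro q
    simp only [Equiv.refl_apply]
    rw [mem_of_full par H hH hfull, mem_of_full par H hH hfull, Prod.commute_iff]
    tauto
  have e2 : Nat.card {r : S × S // ((r.1 ∈ sndMap H ∧ r.2 ∈ sndMap H) ∧ Commute r.1 r.2) ∧
      par r.1 = 1 ∧ par r.2 = 1} = Nat.card {r : S × S // (r.1 ∈ sndMap H ⊓ par.ker ∧
        r.2 ∈ sndMap H ⊓ par.ker) ∧ Commute r.1 r.2} := by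
    apply Nat.card_congr
    refine Equiv.subtypeEquiv (Equiv.refl _) ?_
    intro q
    simp only [Equiv.refl_apply, Subgroup.mem_inf, MonoidHom.mem_ker]
    tauto
  rw [e1, h, e2]

lemma card_full (H : Subgroup (Heis × S)) (hH : H ≤ FP par)
    (hfull : fstKer H = Heis.par.ker) :
    Nat.card H = 64 * Nat.card (sndMap H) := by
  rw [card_eq_mul, hfull, card_par_ker]

/-- The bound on class numbers, given the bound on commuting pairs for the projection. -/
theorem classes_le (H : Subgroup (Heis × S)) (hH : H ≤ FP par)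
    (hK : comm (sndMap H) ≤ 10 * Nat.card (sndMap H) ∨
      (Nat.card (sndMap H) = 32 ∧ comm (sndMap H) ≤ 352 ∧ comm (sndMap H ⊓ par.ker) ≤ 112)) :
    Nat.card (ConjClasses H) ≤ 359 := by
  have hcl : comm H = Nat.card (ConjClasses H) * Nat.card H :=
    card_comm_eq_card_conjClasses_mul_card H
  have hKpos : 0 < Nat.card (sndMap H) := Nat.card_pos
  have hMpos : 0 < Nat.card (fstKer H) := Nat.card_pos
  by_cases hfull : fstKer H = Heis.par.ker
  · have h1 := comm_full par H hH hfull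
    have h2 := card_full par H hH hfull
    rw [hcl, h2] at h1
    rcases hK with hK | ⟨hK1, hK2, hK3⟩
    · have h3 : comm (sndMap H ⊓ par.ker) ≤ comm (sndMap H) := comm_inf_le _ _
      have h4 : Nat.card (ConjClasses H) * (64 * Nat.card (sndMap H)) ≤
          340 * (64 * Nat.card (sndMap H)) := by
        rw [h1]; linarith
      have h5 : Nat.card (ConjClasses H) ≤ 340 := Nat.le_of_mul_le_mul_right h4 (by omega)
      omega
    · rw [hK1] at h1
      omega
  · have h1 := comm_le H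
    have h2 := card_eq_mul H
    have h3 : Nat.card (fstKer H) ≤ 32 := by
      have hle := fstKer_le par H hH
      have hdvd : Nat.card (fstKer H) ∣ 64 := by
        rw [← card_par_ker]
        exact Subgroup.card_dvd_of_le hle
      have hne : Nat.card (fstKer H) ≠ 64 := by
        intro h64
        apply hfull
        apply SetLike.coe_injective
        apply Set.eq_of_subset_of_ncard_le
        · exact hle
        · rw [← Nat.card_coe_set_eq, ← Nat.card_coe_set_eq]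
          have := card_par_ker
          show Nat.card Heis.par.ker ≤ Nat.card (fstKer H)
          omega
        · exact Set.toFinite _
      have hlt : Nat.card (fstKer H) ≤ 64 := Nat.le_of_dvd (by norm_num) hdvd
      obtain ⟨c, hc⟩ := hdvd
      rcases Nat.lt_or_ge c 2 with hc2 | hc2
      · interval_cases c
        · omega
        · omega
      · nlinarith
    rw [hcl, h2] at h1
    have h11 : comm (sndMap H) ≤ 11 * Nat.card (sndMap H) := by
      rcases hK with hK | ⟨hK1, hK2, hK3⟩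
      · linarith
      · omega
    have h4 : Nat.card (ConjClasses H) * (Nat.card (fstKer H) * Nat.card (sndMap H)) ≤
        352 * (Nat.card (fstKer H) * Nat.card (sndMap H)) := by
      calc Nat.card (ConjClasses H) * (Nat.card (fstKer H) * Nat.card (sndMap H))
          ≤ Nat.card (fstKer H) * Nat.card (fstKer H) * comm (sndMap H) := h1
        _ ≤ Nat.card (fstKer H) * 32 * (11 * Nat.card (sndMap H)) := by gcongr
        _ = 352 * (Nat.card (fstKer H) * Nat.card (sndMap H)) := by ring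
    have h5 : Nat.card (ConjClasses H) ≤ 352 :=
      Nat.le_of_mul_le_mul_right h4 (Nat.mul_pos hMpos hKpos)
    omega

end fibre

end Pool.Agent.helper45.Brauer
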